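import Mathlib

namespace Pool.Agent.MP_8f5299_co

variable {α : Type*} [PartialOrder α] [Finite α]

/-- Joins of two steps from a common element give all joins. -/
lemma bez (le r : α → α → Prop) (htrans : ∀ a b c, le a b → le b c → le a c)
    (hrefl : ∀ a b, le a b → le b b) (hr : ∀ u a, r u a → u ≤ a)
    (hhead : ∀ u x, le u x → x ≠ u → ∃ a, r u a ∧ a ≠ u ∧ le a x)
    (H : ∀ u a b, r u a → r u b → ∃ j, le a j ∧ le b j ∧ ∀ y, le a y → le b y → le j y)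
    (u : α) : ∀ x y, le u x → le u y → ∃ j, le x j ∧ le y j ∧ ∀ z, le x z → le y z → le j z := by
  induction u using (wellFounded_gt (α := α)).induction with
  | _ u ih =>
  intro x y hx hy
  by_cases h1 : x = u
  · exact ⟨y, h1 ▸ hy, hrefl _ _ hy, fun z _ h => h⟩
  by_cases h2 : y = u
  · exact ⟨x, hrefl _ _ hx, h2 ▸ hx, fun z h _ => h⟩
  obtain ⟨a, a1, a2, a3⟩ := hhead u x hx h1
  obtain ⟨b, b1, b2, b3⟩ := hhead u y hy h2
  obtain ⟨j, j1, j2, j3⟩ := H u a b a1 b1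
  obtain ⟨p, p1, p2, p3⟩ := ih a (lt_of_le_of_ne (hr _ _ a1) a2.symm) x j a3 j1
  obtain ⟨q, q1, q2, q3⟩ := ih b (lt_of_le_of_ne (hr _ _ b1) b2.symm) p y (htrans _ _ _ j2 p2) b3
  exact ⟨q, htrans _ _ _ p1 q1, q2, fun z h h' =>
    q3 z (p3 z h (j3 z (htrans _ _ _ a3 h) (htrans _ _ _ b3 h'))) h'⟩

/-- Joins give meets. -/
lemma glb_of_lub (le : α → α → Prop) (hle : ∀ a b, le a b → a ≤ b) (p q o : α)
    (hp : le o p) (hq : le o q)
    (H : ∀ a b, le a p → le b p → ∃ j, le a j ∧ le b j ∧ ∀ y, le a y → le b y → le j y) :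
    ∃ m, le m p ∧ le m q ∧ ∀ t, le t p → le t q → le t m := by
  obtain ⟨m, hm⟩ := (Set.toFinite {t | le t p ∧ le t q}).exists_maximal ⟨o, hp, hq⟩
  refine ⟨m, hm.1.1, hm.1.2, fun t h1 h2 => ?_⟩
  obtain ⟨j, j1, j2, j3⟩ := H t m h1 hm.1.1
  have h3 : j ≤ m := hm.2 ⟨j3 p h1 hm.1.1, j3 q h2 hm.1.2⟩ (hle _ _ j2)
  rwa [le_antisymm h3 (hle _ _ j2)] at j1

/-- The data of the gluing argument. -/
structure Data (φ ψ : α → α) (o : α) : Prop where
  gc : ∀ x y, y ≤ φ x ↔ ψ y ≤ x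
  le : ∀ y, ψ y ≤ y
  fix : ∀ y, ψ y = y → y = o
  lj : ∀ x p q, x ≤ p → p ≤ φ x → x ≤ q → q ≤ φ x →
    ∃ j, p ≤ j ∧ q ≤ j ∧ j ≤ φ x ∧ ∀ y, p ≤ y → q ≤ y → y ≤ φ x → j ≤ y

def Step (φ : α → α) (x y : α) : Prop := x ≤ y ∧ y ≤ φ x

def IsMt (x p q m : α) : Prop := x ≤ m ∧ m ≤ p ∧ m ≤ q ∧ ∀ t, x ≤ t → t ≤ p → t ≤ q → t ≤ m

open Classical in
noncomputable def mt (x p q : α) : α := if h : ∃ m, IsMt x p q m then h.choose else x

noncomputable def push (φ : α → α) (u : α) (y : ℕ → α) : ℕ → α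
  | 0 => u
  | i + 1 => mt (y i) (y (i + 1)) (φ (push φ u y i))

def Valid (φ : α → α) (y : ℕ → α) : Prop := ∀ i, Step φ (y i) (y (i + 1))

def Normal (φ : α → α) (y : ℕ → α) : Prop :=
  ∀ i t, y (i + 1) ≤ t → t ≤ y (i + 2) → t ≤ φ (y i) → t ≤ y (i + 1)

noncomputable def GG (φ ψ : α → α) (y : ℕ → α) : ℕ → α := push φ (ψ (y 0)) y

variable {φ ψ : α → α} {o : α}

omit [Finite α] in
lemma Data.le_phi (D : Data φ ψ o) (x : α) : x ≤ φ x := (D.gc x x).mpr (D.le x)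

omit [Finite α] in
lemma Data.mono (D : Data φ ψ o) {x y : α} (h : x ≤ y) : φ x ≤ φ y :=
  (D.gc y _).mpr (((D.gc x _).mp le_rfl).trans h)

omit [Finite α] in
lemma Data.step_psi (D : Data φ ψ o) (y : α) : Step φ (ψ y) y := ⟨D.le y, (D.gc _ _).mpr le_rfl⟩

lemma Data.mt_spec (D : Data φ ψ o) {x p q : α} (h1 : x ≤ p) (h2 : p ≤ φ x) (h3 : x ≤ q)
    (h4 : q ≤ φ x) : IsMt x p q (mt x p q) := by
  have h : ∃ m, IsMt x p q m := by
    obtain ⟨m, m1, m2, m3⟩ := glb_of_lub (fun a b => x ≤ a ∧ a ≤ b ∧ b ≤ φ x)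
      (fun a b h => h.2.1) p q x ⟨le_rfl, h1, h2⟩ ⟨le_rfl, h3, h4⟩ (by
        intro a b ha hb
        obtain ⟨j, j1, j2, j3, j4⟩ := D.lj x a b ha.1 (ha.2.1.trans h2) hb.1 (hb.2.1.trans h2)
        exact ⟨j, ⟨ha.1, j1, j3⟩, ⟨hb.1, j2, j3⟩, fun y k1 k2 =>
          ⟨ha.1.trans j1, j4 y k1.2.1 k2.2.1 k1.2.2, k1.2.2⟩⟩)
    exact ⟨m, m1.1, m1.2.1, m2.2.1, fun t t1 t2 t3 => (m3 t ⟨t1, t2, h2⟩ ⟨t1, t3, h4⟩).2.1⟩
  rw [mt, dif_pos h]; exact h.choose_spec

lemma Data.push_inv (D : Data φ ψ o) {u : α} {y : ℕ → α} (hy : Valid φ y) (hu : Step φ u (y 0)) :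
    ∀ i, Step φ (push φ u y i) (y i)
  | 0 => hu
  | i + 1 => by
    have ih := D.push_inv hy hu i
    have h := D.mt_spec (hy i).1 (hy i).2 ih.2 (D.mono ih.1)
    exact ⟨h.2.1, (hy i).2.trans (D.mono h.1)⟩

lemma Data.push_spec (D : Data φ ψ o) {u : α} {y : ℕ → α} (hy : Valid φ y) (hu : Step φ u (y 0))
    (i : ℕ) : IsMt (y i) (y (i + 1)) (φ (push φ u y i)) (push φ u y (i + 1)) := by
  have ih := D.push_inv hy hu i
  exact D.mt_spec (hy i).1 (hy i).2 ih.2 (D.mono ih.1)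

lemma Data.push_valid (D : Data φ ψ o) {u : α} {y : ℕ → α} (hy : Valid φ y)
    (hu : Step φ u (y 0)) : Valid φ (push φ u y) := fun i =>
  ⟨(D.push_inv hy hu i).1.trans (D.push_spec hy hu i).1, (D.push_spec hy hu i).2.2.1⟩

lemma Data.push_self (D : Data φ ψ o) {y : ℕ → α} (hy : Valid φ y) : push φ (y 0) y = y := by
  funext i
  induction i with
  | zero => rfl
  | succ i ih =>
    have h := D.push_spec hy ⟨le_rfl, D.le_phi _⟩ i
    rw [ih] at h
    exact le_antisymm h.2.1 (h.2.2.2 _ (hy i).1 le_rfl (hy i).2)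

lemma Data.push_push (D : Data φ ψ o) {u a : α} {y : ℕ → α} (hy : Valid φ y)
    (hu : u ≤ a) (ha : a ≤ y 0) (h0 : y 0 ≤ φ u) : push φ u (push φ a y) = push φ u y := by
  have sa : Step φ a (y 0) := ⟨ha, h0.trans (D.mono hu)⟩
  have su : Step φ u (y 0) := ⟨hu.trans ha, h0⟩
  have sua : Step φ u (push φ a y 0) := ⟨hu, ha.trans h0⟩
  have hv := D.push_valid hy sa
  funext i
  induction i with
  | zero => rfl
  | succ i ih =>
    have h1 := D.push_spec hy sa i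
    have h2 := D.push_spec hv sua i
    have h3 := D.push_spec hy su i
    have h4 := D.push_inv hv sua i
    have h5 := D.push_inv hy su i
    have h6 := D.push_inv hy sa i
    rw [ih] at h2 h4
    have h7 : y i ≤ push φ u (push φ a y) (i + 1) := h2.2.2.2 _ h6.1 h1.1 h5.2
    refine le_antisymm (h3.2.2.2 _ h7 (h2.2.1.trans h1.2.1) h2.2.2.1) ?_
    exact h2.2.2.2 _ (h6.1.trans h3.1)
      (h1.2.2.2 _ h3.1 h3.2.1 (h3.2.2.1.trans (D.mono h4.1))) h3.2.2.1

lemma Data.push_normal (D : Data φ ψ o) {u : α} {y : ℕ → α} (hy : Valid φ y) (hn : Normal φ y)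
    (hu : Step φ u (y 0)) : Normal φ (push φ u y) := by
  intro i t t1 t2 t3
  have h1 := D.push_spec hy hu i
  have h2 := D.push_spec hy hu (i + 1)
  have h3 := D.push_inv hy hu i
  have h4 := D.push_inv hy hu (i + 1)
  obtain ⟨j, j1, j2, j3, j4⟩ := D.lj _ t (y (i + 1)) t1 (t2.trans h2.2.2.1) h4.1 h4.2
  have h5 : j ≤ y (i + 1) := hn i j j2 ((j4 _ t2 h2.1 h2.2.2.1).trans h2.2.1)
    (j4 _ (t3.trans (D.mono h3.1)) (hy i).2 (D.mono h1.1))
  exact h1.2.2.2 t (h1.1.trans t1) (j1.trans h5) t3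

lemma Data.recover (D : Data φ ψ o) {u : α} {y : ℕ → α} (hy : Valid φ y) (hn : Normal φ y)
    (hu : Step φ u (y 0)) : push φ (y 0) (fun i => push φ u y (i + 1)) = y := by
  have hv : Valid φ (fun i => push φ u y (i + 1)) := fun i => D.push_valid hy hu (i + 1)
  have h0 := D.push_spec hy hu 0
  have s0 : Step φ (y 0) ((fun i => push φ u y (i + 1)) 0) := ⟨h0.1, h0.2.1.trans (hy 0).2⟩
  funext i
  induction i with
  | zero => rfl
  | succ i ih =>
    have h1 := D.push_spec hv s0 i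
    rw [ih] at h1
    have h2 := D.push_spec hy hu i
    have h3 := D.push_spec hy hu (i + 1)
    have h4 := h1.2.2.2 (y (i + 1)) h2.2.1 h3.1 (hy i).2
    exact le_antisymm (hn i _ h4 (h1.2.1.trans h3.2.1) h1.2.2.1) h4

lemma Data.push_inj (D : Data φ ψ o) {u : α} {y y' : ℕ → α} (hy : Valid φ y) (hn : Normal φ y)
    (hy' : Valid φ y') (hn' : Normal φ y') (hu : Step φ u (y 0)) (h0 : y 0 = y' 0)
    (h : push φ u y = push φ u y') : y = y' := by
  rw [← D.recover hy hn hu, ← D.recover hy' hn' (h0 ▸ hu), h, h0]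

lemma Data.iter_valid (D : Data φ ψ o) {y : ℕ → α} (hy : Valid φ y) (n : ℕ) :
    Valid φ ((GG φ ψ)^[n] y) ∧ (GG φ ψ)^[n] y 0 = ψ^[n] (y 0) := by
  induction n with
  | zero => exact ⟨hy, rfl⟩
  | succ n ih =>
    rw [Function.iterate_succ_apply', Function.iterate_succ_apply', ← ih.2]
    exact ⟨D.push_valid ih.1 (D.step_psi _), rfl⟩

lemma Data.iter_inj (D : Data φ ψ o) (n : ℕ) : ∀ {y y' : ℕ → α}, Valid φ y → Normal φ y →
    Valid φ y' → Normal φ y' → y 0 = y' 0 → (GG φ ψ)^[n] y = (GG φ ψ)^[n] y' → y = y' := by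
  induction n with
  | zero => intro y y' _ _ _ _ _ h; exact h
  | succ n ih =>
    intro y y' hy hn hy' hn' h0 h
    have h1 : GG φ ψ y = GG φ ψ y' := ih (D.push_valid hy (D.step_psi _))
      (D.push_normal hy hn (D.step_psi _)) (D.push_valid hy' (D.step_psi _))
      (D.push_normal hy' hn' (D.step_psi _)) (congrArg ψ h0) h
    refine D.push_inj hy hn hy' hn' (D.step_psi _) h0 ?_
    rw [GG, GG, ← h0] at h1
    exact h1

lemma Data.exists_N (D : Data φ ψ o) : ∃ N, ∀ v, ψ (ψ^[N] v) = ψ^[N] v := by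
  have h : ∀ v, ∃ n, ∀ m, n ≤ m → ψ (ψ^[m] v) = ψ^[m] v := by
    intro v
    induction v using (wellFounded_lt (α := α)).induction with
    | _ v ih =>
    by_cases hv : ψ v = v
    · exact ⟨0, fun m _ => by rw [Function.iterate_fixed hv, hv]⟩
    · obtain ⟨n, hn⟩ := ih (ψ v) (lt_of_le_of_ne (D.le v) hv)
      refine ⟨n + 1, fun m hm => ?_⟩
      obtain ⟨k, rfl⟩ : ∃ k, m = k + 1 := ⟨m - 1, by omega⟩
      exact hn k (by omega)
  choose n hn using h
  obtain ⟨N, hN⟩ := (Set.finite_range n).bddAbove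
  exact ⟨N, fun v => hn v N (hN ⟨v, rfl⟩)⟩

lemma Data.full_G (D : Data φ ψ o) {N : ℕ} (hN : ∀ v, ψ (ψ^[N] v) = ψ^[N] v) {y : ℕ → α}
    (hy : Valid φ y) : (GG φ ψ)^[N] (GG φ ψ y) = (GG φ ψ)^[N] y := by
  have h := D.iter_valid hy N
  rw [← Function.iterate_succ_apply, Function.iterate_succ_apply', GG, h.2, hN, ← h.2]
  exact D.push_self h.1

lemma Data.full_push (D : Data φ ψ o) {N : ℕ} (hN : ∀ v, ψ (ψ^[N] v) = ψ^[N] v) (v : α) :
    ∀ (a : α) (y : ℕ → α), Valid φ y → y 0 = v → Step φ a v →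
      (GG φ ψ)^[N] (push φ a y) = (GG φ ψ)^[N] y := by
  induction v using (wellFounded_lt (α := α)).induction with
  | _ v ih =>
  intro a y hy h0 ha
  subst h0
  by_cases hav : a = y 0
  · rw [hav, D.push_self hy]
  have h1 : ψ (y 0) ≤ a := (D.gc _ _).mp ha.2
  have h2 := D.step_psi (y 0)
  rw [← D.full_G hN hy, GG, ← D.push_push hy h1 ha.1 h2.2]
  exact (ih a (lt_of_le_of_ne ha.1 hav) _ _ (D.push_valid hy ha) rfl ⟨h1, ha.1.trans h2.2⟩).symm

lemma Data.exists_nf (D : Data φ ψ o) {N : ℕ} (hN : ∀ v, ψ (ψ^[N] v) = ψ^[N] v) {u v : α}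
    (h : Relation.ReflTransGen (Step φ) u v) : ∃ y, Valid φ y ∧ Normal φ y ∧ y 0 = u ∧
      (GG φ ψ)^[N] y = (GG φ ψ)^[N] (fun _ => v) ∧
      ∀ i, Relation.ReflTransGen (Step φ) (y i) v := by
  induction h using Relation.ReflTransGen.head_induction_on with
  | refl => exact ⟨fun _ => v, fun _ => ⟨le_rfl, D.le_phi v⟩, fun _ t _ h _ => h, rfl, rfl,
      fun _ => .refl⟩
  | head h1 _ ih =>
    obtain ⟨y, y1, y2, rfl, y4, y5⟩ := ih
    exact ⟨push φ _ y, D.push_valid y1 h1, D.push_normal y1 y2 h1, rfl,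
      (D.full_push hN _ _ y y1 rfl h1).trans y4,
      fun i => .head (D.push_inv y1 h1 i) (y5 i)⟩

lemma Data.step_join (D : Data φ ψ o) (u a b : α) (ha : Step φ u a) (hb : Step φ u b) :
    ∃ j, Relation.ReflTransGen (Step φ) a j ∧ Relation.ReflTransGen (Step φ) b j ∧
      ∀ v, Relation.ReflTransGen (Step φ) a v → Relation.ReflTransGen (Step φ) b v →
        Relation.ReflTransGen (Step φ) j v := by
  obtain ⟨N, hN⟩ := D.exists_N
  obtain ⟨j, j1, j2, j3, j4⟩ := D.lj u a b ha.1 ha.2 hb.1 hb.2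
  refine ⟨j, .single ⟨j1, j3.trans (D.mono ha.1)⟩, .single ⟨j2, j3.trans (D.mono hb.1)⟩, ?_⟩
  intro v hav hbv
  obtain ⟨y, y1, y2, rfl, y4, y5⟩ := D.exists_nf hN hav
  obtain ⟨z, z1, z2, rfl, z4, z5⟩ := D.exists_nf hN hbv
  have h : push φ u y = push φ u z := D.iter_inj N (D.push_valid y1 ha) (D.push_normal y1 y2 ha)
    (D.push_valid z1 hb) (D.push_normal z1 z2 hb) rfl (by
      rw [D.full_push hN _ _ y y1 rfl ha, D.full_push hN _ _ z z1 rfl hb, y4, z4])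
  have h1 := D.push_spec y1 ha 0
  have h2 := D.push_spec z1 hb 0
  rw [← h] at h2
  refine .head (b := push φ u y 1) ⟨j4 _ h1.1 h2.1 h1.2.2.1, ?_⟩
    (.head (D.push_inv y1 ha 1) (y5 1))
  exact h1.2.2.1.trans (D.mono (ha.1.trans j1))

omit [Finite α] in
lemma step_le {x y : α} (h : Relation.ReflTransGen (Step φ) x y) : x ≤ y := by
  induction h with
  | refl => exact le_rfl
  | tail _ h ih => exact ih.trans h.1

lemma Data.bot (D : Data φ ψ o) (v : α) : Relation.ReflTransGen (Step φ) o v := by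
  induction v using (wellFounded_lt (α := α)).induction with
  | _ v ih =>
  by_cases hv : ψ v = v
  · rw [D.fix v hv]
  · exact (ih (ψ v) (lt_of_le_of_ne (D.le v) hv)).tail (D.step_psi v)

lemma Data.join (D : Data φ ψ o) (x y : α) :
    ∃ j, Relation.ReflTransGen (Step φ) x j ∧ Relation.ReflTransGen (Step φ) y j ∧
      ∀ v, Relation.ReflTransGen (Step φ) x v → Relation.ReflTransGen (Step φ) y v →
        Relation.ReflTransGen (Step φ) j v := by
  refine bez (Relation.ReflTransGen (Step φ)) (Step φ) (fun _ _ _ h h' => h.trans h')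
    (fun _ _ _ => .refl) (fun _ _ h => h.1) ?_ D.step_join o x y (D.bot x) (D.bot y)
  intro u x h
  induction h using Relation.ReflTransGen.head_induction_on with
  | refl => intro h; exact absurd rfl h
  | @head a c h1 h2 ih =>
    intro h
    by_cases hc : c = a
    · subst hc; exact ih h
    · exact ⟨c, h1, hc, h2⟩

lemma Data.meet (D : Data φ ψ o) (x y : α) :
    ∃ m, Relation.ReflTransGen (Step φ) m x ∧ Relation.ReflTransGen (Step φ) m y ∧
      ∀ v, Relation.ReflTransGen (Step φ) v x → Relation.ReflTransGen (Step φ) v y →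
        Relation.ReflTransGen (Step φ) v m :=
  glb_of_lub _ (fun _ _ => step_le) x y o (D.bot x) (D.bot y) fun a b _ _ => D.join a b

end Pool.Agent.MP_8f5299_co
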