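import Pool.Agent.MP_8f5299_co.Toric
import Pool.Agent.MP_8f5299_co.Glue

namespace Pool.Agent.MP_8f5299_co

open CoxeterSystem Module

variable {B : Type*} [Fintype B] [DecidableEq B] {M : CoxeterMatrix B}
variable {W : Type*} [Group W] {cs : CoxeterSystem M W}

variable (cs) in
/-- Bruhat order as a partial order. -/
@[reducible] def bruhat : PartialOrder W where
  le := Le cs
  le_refl := Le.refl
  le_trans := fun _ _ _ => Le.trans
  le_antisymm := fun _ _ => Le.antisymm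

lemma toric_phi [Finite W] {ω : List B} (hω : ω.Nodup) (hall : ∀ i, i ∈ ω) (x : W) :
    Toric cs x (phi cs ω x) := by
  obtain ⟨w, h1, h2, h3⟩ := exists_base (cs := cs) ω hω x
  have h4 : Toric cs w (phi cs ω x) := by
    refine ⟨h1.trans (le_phi ω x), ?_⟩
    have hinj : Function.Injective
        ((rho cs (cs.wordProd ω) - 1 : Module.End ℝ (B → ℝ)) : (B → ℝ) → (B → ℝ)) := by
      rw [injective_iff_map_eq_zero]
      intro z hz
      exact fix_zero (cs := cs) hω hall z (by simpa [sub_eq_zero] using hz)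
    have h5 : Vs cs w (phi cs ω x) = ⊤ := by
      rw [← h2, Vs, inv_mul_cancel_left, Mov, LinearMap.range_eq_top]
      exact LinearMap.injective_iff_surjective.mp hinj
    have h6 : ω.length = Fintype.card B := by
      rw [← List.toFinset_card_of_nodup hω]
      congr 1
      ext i; simp [hall i]
    rw [h5, ← h2, h3, h6]; simp [add_comm]
  exact h4.right h1 (le_phi ω x)

lemma toric_join [Finite W] {x v p q : W} (ht : Toric cs x v) (h1 : Le cs x p) (h2 : Le cs p v)
    (h3 : Le cs x q) (h4 : Le cs q v) :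
    ∃ j, Le cs p j ∧ Le cs q j ∧ Le cs j v ∧
      ∀ y, Le cs p y → Le cs q y → Le cs y v → Le cs j y := by
  let _ := bruhat cs
  obtain ⟨j, j1, j2, j3⟩ := bez (fun a b => Le cs x a ∧ Le cs a b ∧ Le cs b v)
    (fun a b => Le cs x a ∧ BCov cs a b ∧ Le cs b v)
    (fun a b c h h' => ⟨h.1, h.2.1.trans h'.2.1, h'.2.2⟩)
    (fun a b h => ⟨h.1.trans h.2.1, Le.refl b, h.2.2⟩) (fun u a h => h.2.1.le)
    (by
      intro u y h hne
      obtain ⟨a, a1, a2⟩ := h.2.1.head hne.symm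
      refine ⟨a, ⟨h.1, a1, a2.trans h.2.2⟩, ?_, h.1.trans a1.le, a2, h.2.2⟩
      rintro rfl
      have := a1.1
      omega)
    (by
      intro u a b ha hb
      obtain ⟨j, j1, j2, j3, j4⟩ := atom_join (ht.right ha.1 (ha.2.1.le.trans ha.2.2))
        ha.2.1 ha.2.2 hb.2.1 hb.2.2
      have hxa := ha.1.trans ha.2.1.le
      exact ⟨j, ⟨hxa, j1, j3⟩, ⟨hb.1.trans hb.2.1.le, j2, j3⟩, fun y k1 k2 =>
        ⟨hxa.trans j1, j4 y k1.2.1 k2.2.1 k1.2.2, k1.2.2⟩⟩)
    x p q ⟨Le.refl x, h1, h2⟩ ⟨Le.refl x, h3, h4⟩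
  exact ⟨j, j1.2.1, j2.2.1, j1.2.2, fun y k1 k2 k3 => (j3 y ⟨h1, k1, k3⟩ ⟨h3, k2, k3⟩).2.1⟩

lemma data [Finite W] {ω : List B} (hω : ω.Nodup) (hall : ∀ i, i ∈ ω) :
    @Data W (bruhat cs) (phi cs ω) (psi cs ω) 1 :=
  @Data.mk W (bruhat cs) _ _ _ (le_phi_iff ω) (psi_le ω) (fun _ h => eq_one_of_psi hall h)
    fun x _ _ h1 h2 h3 h4 => toric_join (toric_phi hω hall x) h1 h2 h3 h4

omit [Fintype B] [DecidableEq B] in
lemma chain_ext {a b c : W} (h : Le cs b c) (r : ℕ) (f : ℕ → W) (h0 : f 0 = a) (hr : f r = b)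
    (hf : ∀ i, i < r → BCov cs (f i) (f (i + 1))) :
    ∃ (r' : ℕ) (g : ℕ → W), g 0 = a ∧ g r' = c ∧ (∀ i, i < r' → BCov cs (g i) (g (i + 1))) ∧
      ∀ i, i ≤ r → ∃ j, j ≤ r' ∧ g j = f i := by
  induction h with
  | refl => exact ⟨r, f, h0, hr, hf, fun i hi => ⟨i, hi, rfl⟩⟩
  | @tail d e _ h2 ih =>
    obtain ⟨s, g, g0, g1, g2, g3⟩ := ih
    refine ⟨s + 1, fun i => if i ≤ s then g i else e, by simpa using g0, by simp, ?_, ?_⟩
    · intro i hi
      by_cases his : i < s
      · simp only [his.le, if_true, Nat.succ_le_of_lt his]; exact g2 i his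
      · obtain rfl : i = s := by omega
        simp only [le_refl, if_true, Nat.not_succ_le_self, if_false]
        rw [g1]; exact h2
    · intro i hi
      obtain ⟨j, j1, j2⟩ := g3 i hi
      exact ⟨j, by omega, by simp [j1, j2]⟩

omit [Fintype B] [DecidableEq B] in
lemma chain_le {r : ℕ} {f : ℕ → W} (hf : ∀ i, i < r → BCov cs (f i) (f (i + 1))) {i j : ℕ}
    (hij : i ≤ j) (hj : j ≤ r) : Le cs (f i) (f j) := by
  induction j, hij using Nat.le_induction with
  | base => exact Le.refl _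
  | succ j _ ih => exact (ih (by omega)).trans (hf j (by omega)).le

lemma len_c {ω : List B} (hω : ω.Nodup) : cs.length (cs.wordProd ω) = ω.length := by
  obtain ⟨w, -, -, h⟩ := exists_base (cs := cs) ω hω 1
  have h1 := cs.length_mul_le w (cs.wordProd ω)
  have h2 := cs.length_wordProd_le ω
  omega

lemma onSimplex_iff {ω : List B} (hω : ω.Nodup) {x y : W} (h : Le cs x y) :
    OnSimplex cs (cs.wordProd ω) x y ↔ Le cs y (phi cs ω x) := by
  constructor
  · rintro ⟨w, r, f, h1, h2, h3, h4, ⟨i, hi, rfl⟩, j, hj, rfl⟩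
    rw [len_c hω] at h1
    have k1 := chain_le h4 (Nat.zero_le i) hi
    have k2 := chain_le h4 hj le_rfl
    rw [h3, ← phi_of_reduced ω w h1, ← h2] at k2
    exact k2.trans (k1.phi ω)
  · intro hy
    obtain ⟨w, h1, h2, h3⟩ := exists_base (cs := cs) ω hω x
    obtain ⟨r1, f1, a0, a1, a2, -⟩ := chain_ext h1 0 (fun _ => w) rfl rfl (by omega)
    obtain ⟨r2, f2, b0, b1, b2, b3⟩ := chain_ext h r1 f1 a0 a1 a2
    obtain ⟨r3, f3, c0, c1, c2, c3⟩ := chain_ext hy r2 f2 b0 b1 b2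
    refine ⟨w, r3, f3, by rw [len_c hω, h3], c0, by rw [c1, h2], c2, ?_, ?_⟩
    · obtain ⟨j, j1, j2⟩ := b3 r1 le_rfl
      obtain ⟨k, k1, k2⟩ := c3 j j1
      exact ⟨k, k1, by rw [k2, j2, a1]⟩
    · obtain ⟨k, k1, k2⟩ := c3 r2 le_rfl
      exact ⟨k, k1, by rw [k2, b1]⟩

lemma ncb_iff {ω : List B} (hω : ω.Nodup) (x y : W) :
    NCBLe cs (cs.wordProd ω) x y ↔
      Relation.ReflTransGen (@Step W (bruhat cs) (phi cs ω)) x y := by
  constructor
  · intro h
    induction h with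
    | refl => exact .refl
    | tail _ hab ih => exact ih.tail ⟨hab.1.le, (onSimplex_iff hω hab.1.le).mp hab.2⟩
  · intro h
    induction h with
    | refl => exact .refl
    | @tail b c h1 h2 ih =>
      refine ih.trans ?_
      have h3 : Le cs b c := h2.1
      have h4 : Le cs c (phi cs ω b) := h2.2
      clear h2 ih h1
      induction h3 using Relation.ReflTransGen.head_induction_on with
      | refl => exact .refl
      | @head a d h5 h6 ih =>
        exact .head ⟨h5, (onSimplex_iff hω h5.le).mpr (Le.trans h6 h4)⟩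
          (ih (h4.trans (h5.le.phi ω)))

end Pool.Agent.MP_8f5299_co
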