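import Mathlib

namespace Pool.Agent.MP_8f5299_co

variable {B : Type*} {M : CoxeterMatrix B} {W : Type*} [Group W]

/-- Bruhat cover: `v = u t` for a reflection `t`, and the length goes up by one. -/
def BCov (cs : CoxeterSystem M W) (u v : W) : Prop :=
  cs.length v = cs.length u + 1 ∧ ∃ t : W, cs.IsReflection t ∧ v = u * t

/-- `u` and `v` both lie on one saturated Bruhat chain `f 0, ..., f r` from `w` to `w c`,
for some `w` with `l(w c) = l(w) + l(c)`. -/
def OnSimplex (cs : CoxeterSystem M W) (c u v : W) : Prop :=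
  ∃ (w : W) (r : ℕ) (f : ℕ → W), cs.length (w * c) = cs.length w + cs.length c ∧
    f 0 = w ∧ f r = w * c ∧ (∀ i, i < r → BCov cs (f i) (f (i + 1))) ∧
    (∃ i, i ≤ r ∧ f i = u) ∧ (∃ j, j ≤ r ∧ f j = v)

/-- The `c`-noncrossing Bruhat order. -/
def NCBLe (cs : CoxeterSystem M W) (c : W) : W → W → Prop :=
  Relation.ReflTransGen fun u v => BCov cs u v ∧ OnSimplex cs c u v

end Pool.Agent.MP_8f5299_co
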