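import Pool.Agent.MP_8f5299_co.Root
import Pool.Agent.MP_8f5299_co.Defs

namespace Pool.Agent.MP_8f5299_co

open CoxeterSystem

variable {B : Type*} {M : CoxeterMatrix B}
variable {W : Type*} [Group W] {cs : CoxeterSystem M W}

variable (cs) in
def Le : W → W → Prop := Relation.ReflTransGen (BCov cs)

variable (cs) in
def Up (x : W) (i : B) : Prop := cs.length (x * cs.simple i) = cs.length x + 1

variable (cs) in
def Dn (x : W) (i : B) : Prop := cs.length (x * cs.simple i) + 1 = cs.length x

lemma up_or_dn (x : W) (i : B) : Up cs x i ∨ Dn cs x i := cs.length_mul_simple x i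

lemma Up.not_dn {x : W} {i : B} (h : Up cs x i) (h' : Dn cs x i) : False := by
  unfold Up at h; unfold Dn at h'; omega

lemma Up.dn {x : W} {i : B} (h : Up cs x i) : Dn cs (x * cs.simple i) i := by
  unfold Up at h; unfold Dn; simp; omega

lemma Dn.up {x : W} {i : B} (h : Dn cs x i) : Up cs (x * cs.simple i) i := by
  unfold Dn at h; unfold Up; simp; omega

lemma Le.refl (x : W) : Le cs x x := Relation.ReflTransGen.refl

lemma Le.trans {x y z : W} (h : Le cs x y) (h' : Le cs y z) : Le cs x z :=
  Relation.ReflTransGen.trans h h'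

lemma BCov.le {x y : W} (h : BCov cs x y) : Le cs x y := Relation.ReflTransGen.single h

lemma Le.eq_or_lt {x y : W} (h : Le cs x y) : x = y ∨ cs.length x < cs.length y := by
  induction h with
  | refl => exact Or.inl rfl
  | tail _ h2 ih =>
    right
    rcases ih with rfl | ih <;> (have := h2.1; omega)

lemma Le.len {x y : W} (h : Le cs x y) : cs.length x ≤ cs.length y := by
  rcases h.eq_or_lt with rfl | h <;> omega

lemma Le.eq_of_len {x y : W} (h : Le cs x y) (hl : cs.length y ≤ cs.length x) : x = y := by
  rcases h.eq_or_lt with rfl | h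
  · rfl
  · omega

lemma Le.antisymm {x y : W} (h : Le cs x y) (h' : Le cs y x) : x = y := h.eq_of_len h'.len

lemma Le.head {x y : W} (h : Le cs x y) (hne : x ≠ y) : ∃ a, BCov cs x a ∧ Le cs a y := by
  rcases Relation.ReflTransGen.cases_head h with h | h
  · exact (hne h).elim
  · exact h

lemma Le.tail {x y : W} (h : Le cs x y) (hne : x ≠ y) : ∃ a, Le cs x a ∧ BCov cs a y := by
  rcases Relation.ReflTransGen.cases_tail h with h | h
  · exact (hne h.symm).elim
  · exact h

lemma Le.bcov {x y : W} (h : Le cs x y) (hl : cs.length y = cs.length x + 1) : BCov cs x y := by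
  obtain ⟨a, h1, h2⟩ := h.head (by rintro rfl; omega)
  have := h2.eq_of_len (by have := h1.1; omega)
  rwa [← this]

lemma Up.bcov {x : W} {i : B} (h : Up cs x i) : BCov cs x (x * cs.simple i) :=
  ⟨h, _, cs.isReflection_simple i, rfl⟩

lemma Dn.bcov {x : W} {i : B} (h : Dn cs x i) : BCov cs (x * cs.simple i) x := by
  simpa using h.up.bcov

lemma BCov.conj {x y : W} {i : B} (h : BCov cs x y)
    (hl : cs.length (y * cs.simple i) = cs.length (x * cs.simple i) + 1) :
    BCov cs (x * cs.simple i) (y * cs.simple i) := by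
  obtain ⟨-, t, ht, rfl⟩ := h
  exact ⟨hl, cs.simple i * t * cs.simple i, by simpa using ht.conj (cs.simple i),
    by simp [mul_assoc]⟩

lemma BCov.uu {x y : W} {i : B} (h : BCov cs x y) (hx : Up cs x i) (hy : Up cs y i) :
    BCov cs (x * cs.simple i) (y * cs.simple i) :=
  h.conj (by have := h.1; unfold Up at hx hy; omega)

lemma BCov.dd {x y : W} {i : B} (h : BCov cs x y) (hx : Dn cs x i) (hy : Dn cs y i) :
    BCov cs (x * cs.simple i) (y * cs.simple i) :=
  h.conj (by have := h.1; unfold Dn at hx hy; omega)

variable [Fintype B] [DecidableEq B]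

lemma BCov.ud {x y : W} {i : B} (h : BCov cs x y) (hx : Up cs x i) (hy : Dn cs y i) :
    y = x * cs.simple i := by
  obtain ⟨hl, t, ht, rfl⟩ := h
  obtain ⟨β, hβ⟩ := exists_lab ht
  by_cases hb : β = al i
  · subst hb; rw [hβ.unique (lab_simple i)]
  · exfalso
    have h1 : 0 ≤ rho cs x β := hβ.pos_of_gt (by omega)
    have h2 := (hβ.conj hb).gt_of_pos (x := x * cs.simple i) (by
      rw [rho_mul, rho_simple, rf_rf M (bil_al_self M i)]; exact h1)
    have h3 : x * cs.simple i * (cs.simple i * t * cs.simple i) = x * t * cs.simple i := by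
      simp [mul_assoc]
    rw [h3] at h2
    unfold Up at hx; unfold Dn at hy; omega

open Classical in
variable (cs) in
noncomputable def dem (x : W) (i : B) : W := if Up cs x i then x * cs.simple i else x

open Classical in
variable (cs) in
noncomputable def low (x : W) (i : B) : W := if Up cs x i then x else x * cs.simple i

omit [Fintype B] [DecidableEq B] in
lemma Up.dem {x : W} {i : B} (h : Up cs x i) : dem cs x i = x * cs.simple i := if_pos h
omit [Fintype B] [DecidableEq B] in
lemma Dn.dem {x : W} {i : B} (h : Dn cs x i) : dem cs x i = x := if_neg fun h' => h'.not_dn h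
omit [Fintype B] [DecidableEq B] in
lemma Up.low {x : W} {i : B} (h : Up cs x i) : low cs x i = x := if_pos h
omit [Fintype B] [DecidableEq B] in
lemma Dn.low {x : W} {i : B} (h : Dn cs x i) : low cs x i = x * cs.simple i :=
  if_neg fun h' => h'.not_dn h

lemma Le.dem {x y : W} (h : Le cs x y) (i : B) : Le cs (dem cs x i) (dem cs y i) := by
  induction h with
  | refl => exact Le.refl _
  | @tail b c _ h2 ih =>
    refine ih.trans ?_
    rcases up_or_dn (cs := cs) b i with hb | hb <;> rcases up_or_dn (cs := cs) c i with hc | hc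
    · rw [hb.dem, hc.dem]; exact (h2.uu hb hc).le
    · rw [hb.dem, hc.dem, h2.ud hb hc]; exact Le.refl _
    · rw [hb.dem, hc.dem]; exact h2.le.trans hc.bcov.le
    · rw [hb.dem, hc.dem]; exact h2.le

lemma Le.low {x y : W} (h : Le cs x y) (i : B) : Le cs (low cs x i) (low cs y i) := by
  induction h with
  | refl => exact Le.refl _
  | @tail b c _ h2 ih =>
    refine ih.trans ?_
    rcases up_or_dn (cs := cs) b i with hb | hb <;> rcases up_or_dn (cs := cs) c i with hc | hc
    · rw [hb.low, hc.low]; exact h2.le
    · rw [hb.low, hc.low, h2.ud hb hc]; simpa using Le.refl _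
    · rw [hb.low, hc.low]; exact hb.bcov.le.trans h2.le
    · rw [hb.low, hc.low]; exact (h2.dd hb hc).le

lemma Le.uu {x y : W} {i : B} (h : Le cs x y) (hx : Up cs x i) (hy : Up cs y i) :
    Le cs (x * cs.simple i) (y * cs.simple i) := by
  have := h.dem i; rwa [hx.dem, hy.dem] at this

lemma Le.dd {x y : W} {i : B} (h : Le cs x y) (hx : Dn cs x i) (hy : Dn cs y i) :
    Le cs (x * cs.simple i) (y * cs.simple i) := by
  have := h.low i; rwa [hx.low, hy.low] at this

lemma Le.ud1 {x y : W} {i : B} (h : Le cs x y) (hx : Up cs x i) (hy : Dn cs y i) :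
    Le cs (x * cs.simple i) y := by
  have := h.dem i; rwa [hx.dem, hy.dem] at this

lemma Le.ud2 {x y : W} {i : B} (h : Le cs x y) (hx : Up cs x i) (hy : Dn cs y i) :
    Le cs x (y * cs.simple i) := by
  have := h.low i; rwa [hx.low, hy.low] at this

omit [Fintype B] [DecidableEq B] in
lemma le_dem (x : W) (i : B) : Le cs x (dem cs x i) := by
  rcases up_or_dn (cs := cs) x i with h | h
  · rw [h.dem]; exact h.bcov.le
  · rw [h.dem]; exact Le.refl _

omit [Fintype B] [DecidableEq B] in
lemma low_le (x : W) (i : B) : Le cs (low cs x i) x := by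
  rcases up_or_dn (cs := cs) x i with h | h
  · rw [h.low]; exact Le.refl _
  · rw [h.low]; exact h.bcov.le

lemma le_dem_iff {x y : W} {i : B} : Le cs y (dem cs x i) ↔ Le cs (low cs y i) x := by
  constructor
  · intro h
    refine (h.low i).trans ?_
    rcases up_or_dn (cs := cs) x i with hx | hx
    · rw [hx.dem, hx.dn.low]; simpa using Le.refl x
    · rw [hx.dem]; exact low_le _ _
  · intro h
    refine Le.trans ?_ (h.dem i)
    rcases up_or_dn (cs := cs) y i with hy | hy
    · rw [hy.low]; exact le_dem _ _
    · rw [hy.low, hy.up.dem]; simpa using Le.refl y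

lemma diamond : ∀ (n : ℕ) {x y z : W}, cs.length z = n → BCov cs x y → BCov cs y z →
    ∃ y', y' ≠ y ∧ BCov cs x y' ∧ BCov cs y' z := by
  intro n
  induction n using Nat.strong_induction_on with
  | _ n ih =>
  intro x y z hn hxy hyz
  have l1 := hxy.1
  have l2 := hyz.1
  have h1 : z ≠ 1 := by rintro rfl; simp at l2
  obtain ⟨i, hi⟩ := cs.exists_rightDescent_of_ne_one h1
  rw [isRightDescent_iff] at hi
  have hz : Dn cs z i := hi
  have hxz := hxy.le.trans hyz.le
  rcases up_or_dn (cs := cs) x i with hx | hx
  · by_cases hy : y = x * cs.simple i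
    · refine ⟨z * cs.simple i, ?_, (hxz.ud2 hx hz).bcov (by omega), hz.bcov⟩
      rw [hy]; intro h; have := mul_right_cancel h; subst this; omega
    · exact ⟨x * cs.simple i, Ne.symm hy, hx.bcov,
        (hxz.ud1 hx hz).bcov (by unfold Up at hx; omega)⟩
  · rcases up_or_dn (cs := cs) y i with hy | hy
    · have hzy := hyz.ud hy hz
      have hy' : y = z * cs.simple i := by rw [hzy]; simp
      obtain ⟨y'', hne, c1, c2⟩ := ih (cs.length y) (by omega) rfl hx.bcov hxy
      rcases up_or_dn (cs := cs) y'' i with h2 | h2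
      · refine ⟨y'' * cs.simple i, ?_, by simpa using c1.uu hx.up h2, ?_⟩
        · intro h; rw [← h] at hy; exact hy.not_dn h2.dn
        · rw [hzy]; exact c2.uu h2 hy
      · exfalso; apply hne; simpa using c1.ud hx.up h2
    · obtain ⟨y'', hne, c1, c2⟩ := ih (cs.length (z * cs.simple i)) (by omega) rfl
        (hxy.dd hx hy) (hyz.dd hy hz)
      rcases up_or_dn (cs := cs) y'' i with h2 | h2
      · refine ⟨y'' * cs.simple i, ?_, by simpa using c1.uu hx.up h2,
          by simpa using c2.uu h2 hz.up⟩
        intro h; apply hne; rw [← h]; simp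
      · have : y'' = x := by simpa using c1.ud hx.up h2
        subst this
        refine ⟨z * cs.simple i, ?_, c2, hz.bcov⟩
        intro h; rw [← h] at hy; exact hz.up.not_dn hy

variable (cs) in
noncomputable def phi (ω : List B) (x : W) : W := ω.foldl (dem cs) x

variable (cs) in
noncomputable def psi (ω : List B) (y : W) : W := ω.foldr (fun i y => low cs y i) y

lemma le_phi_iff : ∀ (ω : List B) (x y : W), Le cs y (phi cs ω x) ↔ Le cs (psi cs ω y) x
  | [], x, y => Iff.rfl
  | i :: ω, x, y => by
    change Le cs y (phi cs ω (dem cs x i)) ↔ Le cs (low cs (psi cs ω y) i) x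
    rw [le_phi_iff ω, le_dem_iff]

omit [Fintype B] [DecidableEq B] in
lemma psi_le : ∀ (ω : List B) (y : W), Le cs (psi cs ω y) y
  | [], y => Le.refl y
  | i :: ω, y => (low_le _ i).trans (psi_le ω y)

lemma le_phi (ω : List B) (x : W) : Le cs x (phi cs ω x) := (le_phi_iff ω x x).mpr (psi_le ω x)

lemma Le.phi {x y : W} (h : Le cs x y) (ω : List B) : Le cs (phi cs ω x) (phi cs ω y) :=
  (le_phi_iff ω y _).mpr (((le_phi_iff ω x _).mp (Le.refl _)).trans h)

omit [Fintype B] [DecidableEq B] in
lemma up_of_psi : ∀ (ω : List B) (y : W), psi cs ω y = y → ∀ i ∈ ω, Up cs y i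
  | [], y, _, i, hi => by simp at hi
  | j :: ω, y, h, i, hi => by
    change low cs (psi cs ω y) j = y at h
    have h1 : psi cs ω y = y := (psi_le ω y).antisymm (by
      have := low_le (cs := cs) (psi cs ω y) j; rwa [h] at this)
    rcases List.mem_cons.mp hi with rfl | hi
    · rw [h1] at h
      rcases up_or_dn (cs := cs) y i with h2 | h2
      · exact h2
      · rw [h2.low] at h; unfold Dn at h2; rw [h] at h2; omega
    · exact up_of_psi ω y h1 i hi

omit [Fintype B] [DecidableEq B] in
lemma eq_one_of_psi {ω : List B} (hω : ∀ i, i ∈ ω) {y : W} (h : psi cs ω y = y) : y = 1 := by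
  by_contra h1
  obtain ⟨i, hi⟩ := cs.exists_rightDescent_of_ne_one h1
  rw [isRightDescent_iff] at hi
  exact (up_of_psi ω y h i (hω i)).not_dn hi

lemma coord_fix : ∀ (ω : List B) (i : B) (z : B → ℝ), i ∉ ω →
    rho cs (cs.wordProd ω) z i = z i
  | [], i, z, _ => by simp
  | j :: ω, i, z, h => by
    rw [List.mem_cons, not_or] at h
    rw [wordProd_cons, rho_mul, rho_simple, rf_apply]
    simp [al, Pi.single_eq_of_ne h.1, coord_fix ω i z h.2]

omit [Fintype B] [DecidableEq B] in
lemma phi_concat (ω : List B) (i : B) (x : W) :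
    phi cs (ω ++ [i]) x = dem cs (phi cs ω x) i := by simp [phi]

lemma exists_base (ω : List B) (hω : ω.Nodup) (x : W) :
    ∃ w, Le cs w x ∧ w * cs.wordProd ω = phi cs ω x ∧
      cs.length (w * cs.wordProd ω) = cs.length w + ω.length := by
  induction ω using List.reverseRecOn with
  | nil => exact ⟨x, Le.refl x, by simp [phi], by simp⟩
  | append_singleton ω i ih =>
    have hi : i ∉ ω := by
      intro h; rw [List.nodup_append] at hω; exact hω.2.2 i h i (by simp) rfl
    obtain ⟨w, h1, h2, h3⟩ := ih (List.nodup_append.mp hω).1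
    rw [phi_concat, wordProd_append, wordProd_singleton, List.length_append, List.length_singleton]
    rcases up_or_dn (cs := cs) (phi cs ω x) i with hu | hd
    · refine ⟨w, h1, by rw [hu.dem, ← h2, mul_assoc], ?_⟩
      unfold Up at hu
      rw [← mul_assoc, h2, hu, ← h2, h3]; omega
    · set c := cs.wordProd ω
      have hr : IsRoot cs (rho cs c (al i)) := ⟨c, i, rfl⟩
      have hp : 0 ≤ rho cs c (al i) := by
        rcases hr.pos_or_neg with h | h
        · exact h
        · have := h i
          rw [coord_fix ω i _ hi] at this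
          simp [al] at this
          linarith
      have hlab : Lab cs (c * cs.simple i * c⁻¹) (rho cs c (al i)) := by
        refine ⟨⟨c, i, rfl⟩, hr, hp, ?_⟩
        apply LinearMap.ext; intro z
        rw [rho_mul, rho_mul, rho_simple, rho_rf, rho_apply_inv]
      have hlt := Lab.lt_of_neg _ w rfl hlab (by
        rw [← rho_mul, h2]; exact neg_of_descent cs hd)
      have he : w * (c * cs.simple i * c⁻¹) * (c * cs.simple i) = phi cs ω x := by
        rw [← h2]; simp [mul_assoc]
      have hle := cs.length_mul_le (w * (c * cs.simple i * c⁻¹)) c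
      have he2 : w * (c * cs.simple i * c⁻¹) * c = phi cs ω x * cs.simple i := by
        rw [← h2]; simp [mul_assoc]
      have hc : cs.length c ≤ ω.length := cs.length_wordProd_le ω
      unfold Dn at hd
      rw [he2] at hle
      rw [h2] at h3
      refine ⟨w * (c * cs.simple i * c⁻¹), Le.trans (BCov.le ⟨by omega, _, hlab.refl, ?_⟩) h1,
        by rw [he, Dn.dem hd], by rw [he]; omega⟩
      rw [mul_assoc, hlab.refl.mul_self, mul_one]

omit [Fintype B] [DecidableEq B] in
lemma phi_of_reduced (ω : List B) (w : W)
    (h : cs.length (w * cs.wordProd ω) = cs.length w + ω.length) :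
    phi cs ω w = w * cs.wordProd ω := by
  induction ω using List.reverseRecOn with
  | nil => simp [phi]
  | append_singleton ω i ih =>
    rw [wordProd_append, wordProd_singleton, List.length_append, List.length_singleton,
      ← mul_assoc] at h
    have h1 := cs.length_mul_le w (cs.wordProd ω)
    have h2 := cs.length_wordProd_le ω
    have h3 := cs.length_mul_simple (w * cs.wordProd ω) i
    have h4 : Up cs (w * cs.wordProd ω) i := by unfold Up; omega
    rw [phi_concat, ih (by omega), h4.dem, wordProd_append, wordProd_singleton, mul_assoc]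

lemma fix_simple : ∀ (ω : List B), ω.Nodup → ∀ (z : B → ℝ), rho cs (cs.wordProd ω) z = z →
    ∀ i ∈ ω, bil M z (al i) = 0
  | [], _, z, _, i, hi => by simp at hi
  | j :: ω, hω, z, h, i, hi => by
    rw [List.nodup_cons] at hω
    rw [wordProd_cons, rho_mul, rho_simple] at h
    have h1 : rho cs (cs.wordProd ω) z = rf M (al j) z := by
      rw [← rf_rf M (bil_al_self M j) (rho cs (cs.wordProd ω) z), h]
    have h2 := coord_fix (cs := cs) ω j z hω.1
    rw [h1, rf_apply] at h2
    have h3 : bil M z (al j) = 0 := by simpa [al] using h2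
    rcases List.mem_cons.mp hi with rfl | hi
    · exact h3
    · refine fix_simple ω hω.2 z ?_ i hi
      rw [h1, rf_apply, h3]; simp

lemma fix_zero [Finite W] {ω : List B} (hω : ω.Nodup) (hall : ∀ i, i ∈ ω) (z : B → ℝ)
    (h : rho cs (cs.wordProd ω) z = z) : z = 0 := by
  have := Fintype.ofFinite W
  have h1 : ∀ w, rho cs w z = z := by
    intro w
    induction w using cs.simple_induction_left with
    | one => simp
    | mul_simple_left w i ih =>
      rw [rho_mul, ih, rho_simple, rf_apply, fix_simple ω hω z h i (hall i)]; simp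
  let A : Module.End ℝ (B → ℝ) := ∑ w, rho cs w
  have hA : ∀ i, A (al i) = 0 := by
    intro i
    have e : ∑ w, rho cs w (al i) = ∑ w, rho cs (w * cs.simple i) (al i) :=
      (Equiv.sum_comp (Equiv.mulRight (cs.simple i)) (fun w => rho cs w (al i))).symm
    simp only [rho_mul, rho_simple, rf_al_self, map_neg, Finset.sum_neg_distrib] at e
    have e2 : A (al i) = ∑ w, rho cs w (al i) := by simp [A]
    rw [e2]
    exact self_eq_neg.mp e
  have hA0 : A z = 0 := by
    have : z = ∑ i, z i • al i := by
      funext j; simp [al, Finset.sum_apply, Pi.single_apply]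
    rw [this, map_sum]; simp [hA]
  have e2 : A z = ∑ w, rho cs w z := by simp [A]
  rw [e2] at hA0
  simp only [h1, Finset.sum_const, Finset.card_univ] at hA0
  rcases smul_eq_zero.mp ((Nat.cast_smul_eq_nsmul ℝ _ z).trans hA0) with h | h
  · exact absurd h (by exact_mod_cast Fintype.card_ne_zero)
  · exact h

end Pool.Agent.MP_8f5299_co
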