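import Mathlib

namespace Pool.Agent.MP_8f5299_co

open CoxeterSystem

section Form

variable {B : Type*} [Fintype B] [DecidableEq B] (M : CoxeterMatrix B)

noncomputable def kap (i j : B) : ℝ := Real.cos (Real.pi / (M i j : ℝ))

noncomputable def bil : (B → ℝ) →ₗ[ℝ] (B → ℝ) →ₗ[ℝ] ℝ :=
  Matrix.toBilin' (Matrix.of fun i j => -kap M i j)

def al (i : B) : B → ℝ := Pi.single i 1

omit [Fintype B] [DecidableEq B] in
lemma kap_symm (i j : B) : kap M i j = kap M j i := by
  unfold kap; rw [M.symmetric i j]

omit [Fintype B] [DecidableEq B] in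
lemma kap_self (i : B) : kap M i i = -1 := by
  unfold kap; simp

lemma bil_al_al (i j : B) : bil M (al i) (al j) = -kap M i j := by
  unfold bil al
  rw [Matrix.toBilin'_single]; simp

lemma bil_symm (x y : B → ℝ) : bil M x y = bil M y x := by
  unfold bil
  rw [Matrix.toBilin'_apply, Matrix.toBilin'_apply, Finset.sum_comm]
  refine Finset.sum_congr rfl fun i _ => Finset.sum_congr rfl fun j _ => ?_
  simp [kap_symm M j i]; ring

lemma bil_al_self (i : B) : bil M (al i) (al i) = 1 := by
  rw [bil_al_al, kap_self]; simp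

noncomputable def rf (β : B → ℝ) : Module.End ℝ (B → ℝ) :=
  LinearMap.id - ((2 : ℝ) • (bil M).flip β).smulRight β

lemma rf_apply (β x : B → ℝ) : rf M β x = x - (2 * bil M x β) • β := by
  simp [rf]

lemma rf_self {β : B → ℝ} (h : bil M β β = 1) : rf M β β = -β := by
  rw [rf_apply, h]; module

lemma rf_neg (β : B → ℝ) : rf M (-β) = rf M β := by
  apply LinearMap.ext
  intro x
  simp [rf_apply]

lemma bil_rf {β : B → ℝ} (h : bil M β β = 1) (x y : B → ℝ) :
    bil M (rf M β x) (rf M β y) = bil M x y := by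
  simp only [rf_apply, map_sub, map_smul, LinearMap.sub_apply, LinearMap.smul_apply, h,
    smul_eq_mul]
  rw [bil_symm M β y]; ring

lemma rf_rf {β : B → ℝ} (h : bil M β β = 1) (x : B → ℝ) : rf M β (rf M β x) = x := by
  rw [rf_apply M β x, map_sub, map_smul, rf_self M h, rf_apply]; module

/-- Chebyshev-like sequence. -/
noncomputable def U (k : ℝ) : ℕ → ℝ
  | 0 => 0
  | 1 => 1
  | (n + 2) => 2 * k * U k (n + 1) - U k n

lemma U_sin (θ : ℝ) : ∀ n : ℕ, U (Real.cos θ) n * Real.sin θ = Real.sin (n * θ)
  | 0 => by simp [U]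
  | 1 => by simp [U]
  | (n + 2) => by
    have h1 := U_sin θ (n + 1)
    have h0 := U_sin θ n
    have e2 : ((n + 2 : ℕ) : ℝ) * θ = (n + 1 : ℕ) * θ + θ := by push_cast; ring
    have e0 : (n : ℝ) * θ = (n + 1 : ℕ) * θ - θ := by push_cast; ring
    rw [U, sub_mul, mul_assoc, h1, h0, e2, e0, Real.sin_add, Real.sin_sub]; ring

lemma U_one : ∀ n : ℕ, U 1 n = n
  | 0 => by simp [U]
  | 1 => by simp [U]
  | (n + 2) => by rw [U, U_one (n + 1), U_one n]; push_cast; ring

omit [Fintype B] [DecidableEq B] in
lemma sin_pos_of {i j : B} (hij : i ≠ j) (h0 : M i j ≠ 0) :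
    0 < Real.sin (Real.pi / (M i j : ℝ)) := by
  have h1 := M.off_diagonal i j hij
  have h2 : (2 : ℝ) ≤ (M i j : ℝ) := by
    have : 2 ≤ M i j := by omega
    exact_mod_cast this
  apply Real.sin_pos_of_pos_of_lt_pi
  · exact div_pos Real.pi_pos (by linarith)
  · rw [div_lt_iff₀ (by linarith)]; nlinarith [Real.pi_pos]

omit [Fintype B] [DecidableEq B] in
lemma U_nonneg {i j : B} (hij : i ≠ j) {n : ℕ} (hn : M i j = 0 ∨ n ≤ M i j) :
    0 ≤ U (kap M i j) n := by
  by_cases h0 : M i j = 0
  · have : kap M i j = 1 := by simp [kap, h0]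
    rw [this, U_one]; positivity
  · have hn' : n ≤ M i j := hn.resolve_left h0
    have hs := sin_pos_of M hij h0
    have h := U_sin (Real.pi / (M i j : ℝ)) n
    have hm : (0 : ℝ) < M i j := by positivity
    have : 0 ≤ Real.sin (n * (Real.pi / (M i j : ℝ))) := by
      apply Real.sin_nonneg_of_nonneg_of_le_pi
      · positivity
      · rw [← mul_div_assoc, div_le_iff₀ hm]
        have : (n : ℝ) ≤ M i j := by exact_mod_cast hn'
        nlinarith [Real.pi_pos]
    rw [← h] at this
    exact nonneg_of_mul_nonneg_left this hs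

lemma rf_al_al (i j : B) : rf M (al i) (al j) = al j + (2 * kap M i j) • al i := by
  rw [rf_apply, bil_al_al, kap_symm M j i]; module

lemma rf_al_self (i : B) : rf M (al i) (al i) = -al i := rf_self M (bil_al_self M i)

lemma pow_al_left (i j : B) (k : ℕ) :
    ((rf M (al i) * rf M (al j)) ^ k) (al i) =
      U (kap M i j) (2 * k + 1) • al i + U (kap M i j) (2 * k) • al j := by
  induction k with
  | zero => simp [U]
  | succ k ih =>
    rw [pow_succ', Module.End.mul_apply, ih]
    have e1 : 2 * (k + 1) + 1 = (2 * k + 1) + 2 := by ring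
    have e2 : 2 * (k + 1) = 2 * k + 2 := by ring
    have hA : U (kap M i j) (2 * k + 2) =
        2 * kap M i j * U (kap M i j) (2 * k + 1) - U (kap M i j) (2 * k) := rfl
    have hB : U (kap M i j) (2 * k + 1 + 2) =
        2 * kap M i j * U (kap M i j) (2 * k + 2) - U (kap M i j) (2 * k + 1) := rfl
    rw [e1, e2, hB, hA]
    simp only [Module.End.mul_apply, map_add, map_smul, rf_al_self, map_neg, rf_al_al M j i,
      rf_al_al M i j, kap_symm M j i]
    module

lemma pow_al_right (i j : B) (k : ℕ) :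
    ((rf M (al i) * rf M (al j)) ^ k) (al j) =
      (-U (kap M i j) (2 * k)) • al i +
        (U (kap M i j) (2 * k + 1) - 2 * kap M i j * U (kap M i j) (2 * k)) • al j := by
  induction k with
  | zero => simp [U]
  | succ k ih =>
    rw [pow_succ', Module.End.mul_apply, ih]
    have e1 : 2 * (k + 1) + 1 = (2 * k + 1) + 2 := by ring
    have e2 : 2 * (k + 1) = 2 * k + 2 := by ring
    have hA : U (kap M i j) (2 * k + 2) =
        2 * kap M i j * U (kap M i j) (2 * k + 1) - U (kap M i j) (2 * k) := rfl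
    have hB : U (kap M i j) (2 * k + 1 + 2) =
        2 * kap M i j * U (kap M i j) (2 * k + 2) - U (kap M i j) (2 * k + 1) := rfl
    rw [e1, e2, hB, hA]
    simp only [Module.End.mul_apply, map_add, map_smul, rf_al_self, map_neg, rf_al_al M j i,
      rf_al_al M i j, kap_symm M j i]
    module

lemma liftable : M.IsLiftable (fun i => rf M (al i)) := by
  intro i j
  by_cases hij : i = j
  · subst hij
    rw [M.diagonal, pow_one]
    apply LinearMap.ext
    intro x
    simp [rf_rf M (bil_al_self M i)]
  by_cases h0 : M i j = 0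
  · simp [h0]
  have hs := sin_pos_of M hij h0
  set θ := Real.pi / (M i j : ℝ) with hθ
  have hm : (M i j : ℝ) ≠ 0 := by positivity
  have hk : kap M i j = Real.cos θ := rfl
  have hU0 : U (kap M i j) (2 * M i j) = 0 := by
    have h := U_sin θ (2 * M i j)
    have : ((2 * M i j : ℕ) : ℝ) * θ = 2 * Real.pi := by
      push_cast; rw [hθ]; field_simp
    rw [this, Real.sin_two_pi] at h
    rw [hk]; exact (mul_eq_zero.mp h).resolve_right hs.ne'
  have hU1 : U (kap M i j) (2 * M i j + 1) = 1 := by
    have h := U_sin θ (2 * M i j + 1)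
    have : ((2 * M i j + 1 : ℕ) : ℝ) * θ = θ + 2 * Real.pi := by
      push_cast; rw [hθ]; field_simp; ring
    rw [this, Real.sin_add_two_pi] at h
    rw [hk]
    have := mul_right_cancel₀ hs.ne' (h.trans (one_mul _).symm)
    exact this
  have hi := pow_al_left M i j (M i j)
  have hj := pow_al_right M i j (M i j)
  rw [hU0, hU1] at hi hj
  simp only [one_smul, zero_smul, add_zero, neg_zero, mul_zero, sub_zero, zero_add] at hi hj
  have hd : 1 - kap M i j ^ 2 ≠ 0 := by
    rw [hk]; have := Real.sin_sq_add_cos_sq θ; nlinarith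
  apply LinearMap.ext
  intro z
  set a := bil M z (al i)
  set b := bil M z (al j)
  set κ := kap M i j
  set z0 := z - ((a + κ * b) / (1 - κ ^ 2)) • al i - ((b + κ * a) / (1 - κ ^ 2)) • al j with hz0
  have h1 : bil M z0 (al i) = 0 := by
    simp only [hz0, map_sub, map_smul, LinearMap.sub_apply, LinearMap.smul_apply, bil_al_self,
      bil_al_al, kap_symm M j i, smul_eq_mul]
    change a - _ - _ * -κ = 0
    field_simp; ring
  have h2 : bil M z0 (al j) = 0 := by
    simp only [hz0, map_sub, map_smul, LinearMap.sub_apply, LinearMap.smul_apply, bil_al_self,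
      bil_al_al, smul_eq_mul]
    change b - _ * -κ - _ = 0
    field_simp; ring
  have h3 : ∀ k : ℕ, ((rf M (al i) * rf M (al j)) ^ k) z0 = z0 := by
    intro k
    induction k with
    | zero => simp
    | succ k ih =>
      rw [pow_succ', Module.End.mul_apply, ih, Module.End.mul_apply, rf_apply M (al j), h2]
      simp [rf_apply, h1]
  have hz : z = z0 + ((a + κ * b) / (1 - κ ^ 2)) • al i + ((b + κ * a) / (1 - κ ^ 2)) • al j := by
    rw [hz0]; module
  change ((rf M (al i) * rf M (al j)) ^ M i j) z = z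
  conv_lhs => rw [hz]
  rw [map_add, map_add, map_smul, map_smul, hi, hj, h3, ← hz]

end Form

end Pool.Agent.MP_8f5299_co
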