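import Pool.Agent.MP_8f5299_co.Geo

namespace Pool.Agent.MP_8f5299_co

open CoxeterSystem

variable {B : Type*} [Fintype B] [DecidableEq B] {M : CoxeterMatrix B}
variable {W : Type*} [Group W] (cs : CoxeterSystem M W)

noncomputable def rho : W →* Module.End ℝ (B → ℝ) :=
  cs.lift ⟨fun i => rf M (al i), liftable M⟩

lemma rho_simple (i : B) : rho cs (cs.simple i) = rf M (al i) :=
  cs.lift_apply_simple (liftable M) i

lemma rho_mul (a b : W) (x : B → ℝ) : rho cs (a * b) x = rho cs a (rho cs b x) := by
  rw [map_mul]; rfl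

lemma rho_one (x : B → ℝ) : rho cs 1 x = x := by rw [map_one]; rfl

lemma rho_inv_apply (a : W) (x : B → ℝ) : rho cs a⁻¹ (rho cs a x) = x := by
  rw [← rho_mul, inv_mul_cancel, rho_one]

lemma rho_apply_inv (a : W) (x : B → ℝ) : rho cs a (rho cs a⁻¹ x) = x := by
  rw [← rho_mul, mul_inv_cancel, rho_one]

lemma bil_rho (w : W) (x y : B → ℝ) : bil M (rho cs w x) (rho cs w y) = bil M x y := by
  induction w using cs.simple_induction_left with
  | one => simp
  | mul_simple_left w i ih =>
    rw [rho_mul, rho_mul, rho_simple, bil_rf M (bil_al_self M i), ih]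

lemma rho_rf (w : W) (β x : B → ℝ) :
    rho cs w (rf M β x) = rf M (rho cs w β) (rho cs w x) := by
  rw [rf_apply, rf_apply, map_sub, map_smul, bil_rho]

lemma alt_apply {i j : B} (k : ℕ) :
    rho cs (cs.wordProd (alternatingWord i j k)) (al i) =
      U (kap M i j) (k + 1) • al (if Even k then i else j) +
        U (kap M i j) k • al (if Even k then j else i) := by
  induction k with
  | zero => simp [alternatingWord, U]
  | succ k ih =>
    rw [alternatingWord_succ', wordProd_cons, rho_mul, ih, rho_simple]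
    have hA : U (kap M i j) (k + 1 + 1) =
        2 * kap M i j * U (kap M i j) (k + 1) - U (kap M i j) k := rfl
    by_cases hk : Even k
    · have hk' : ¬ Even (k + 1) := by simp [hk, parity_simps]
      simp only [hk, hk', if_true, if_false, map_add, map_smul, rf_al_self, rf_al_al M j i,
        kap_symm M j i, hA]
      module
    · have hk' : Even (k + 1) := by simpa [parity_simps] using hk
      simp only [hk, hk', if_true, if_false, map_add, map_smul, rf_al_self, rf_al_al M i j, hA]
      module

omit [Fintype B] in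
lemma al_nonneg (i : B) : (0 : B → ℝ) ≤ al i := by
  intro j; unfold al; by_cases h : j = i
  · subst h; simp
  · simp [Pi.single_eq_of_ne h]

lemma pos_of_ascent : ∀ (n : ℕ) (w : W) (i : B), cs.length w = n →
    cs.length (w * cs.simple i) = cs.length w + 1 → 0 ≤ rho cs w (al i) := by
  intro n
  induction n using Nat.strong_induction_on with
  | _ n ih =>
  intro w i hn hw
  by_cases h1 : w = 1
  · subst h1; rw [rho_one]; exact al_nonneg i
  obtain ⟨j, hj⟩ := cs.exists_rightDescent_of_ne_one h1
  rw [isRightDescent_iff] at hj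
  have hij : i ≠ j := by rintro rfl; omega
  -- maximal k
  let P : ℕ → Prop := fun k => ∃ v, w = v * cs.wordProd (alternatingWord i j k) ∧
    cs.length w = cs.length v + k
  have hP1 : P 1 := ⟨w * cs.simple j, by simp [alternatingWord], by omega⟩
  have hPle : ∀ k, P k → k ≤ n := by rintro k ⟨v, -, hv⟩; omega
  classical
  set k := Nat.findGreatest P n with hk
  have hPk : P k := Nat.findGreatest_spec (hPle 1 hP1) hP1
  have hk1 : 1 ≤ k := Nat.le_findGreatest (hPle 1 hP1) hP1
  have hmax : ¬ P (k + 1) := fun h =>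
    Nat.findGreatest_is_greatest (Nat.lt_succ_self k) (hPle _ h) h
  obtain ⟨v, hv, hl⟩ := hPk
  have hkm : M i j = 0 ∨ k + 1 ≤ M i j := by
    by_contra hc
    push Not at hc
    have hnr := cs.not_isReduced_alternatingWord j i (m := k + 1)
      (by rw [M.symmetric]; exact hc.1) (by rw [M.symmetric]; omega)
    apply hnr
    unfold CoxeterSystem.IsReduced
    have h2 := cs.length_wordProd_le (alternatingWord j i (k + 1))
    have h3 : w * cs.simple i = v * cs.wordProd (alternatingWord j i (k + 1)) := by
      rw [alternatingWord_succ, wordProd_concat, hv, mul_assoc]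
    have h4 := cs.length_mul_le v (cs.wordProd (alternatingWord j i (k + 1)))
    rw [← h3] at h4
    rw [length_alternatingWord] at h2 ⊢
    omega
  have hA : cs.length (v * cs.simple (if Even k then j else i)) = cs.length v + 1 := by
    rcases cs.length_mul_simple v (if Even k then j else i) with h | h
    · exact h
    · exfalso; apply hmax
      refine ⟨v * cs.simple (if Even k then j else i), ?_, by omega⟩
      rw [alternatingWord_succ', wordProd_cons, mul_assoc, simple_mul_simple_cancel_left, ← hv]
  have hB : cs.length (v * cs.simple (if Even k then i else j)) = cs.length v + 1 := by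
    rcases cs.length_mul_simple v (if Even k then i else j) with h | h
    · exact h
    · exfalso
      obtain ⟨k', hk'⟩ : ∃ k', k = k' + 1 := ⟨k - 1, by omega⟩
      have e : (if Even k then i else j) = (if Even k' then j else i) := by
        rw [hk']; by_cases he : Even k' <;> simp [he, parity_simps]
      have h3 : w = (v * cs.simple (if Even k then i else j)) *
          cs.wordProd (alternatingWord i j k') := by
        rw [e, mul_assoc, ← wordProd_cons, ← alternatingWord_succ', ← hk', ← hv]
      have h4 := cs.length_mul_le (v * cs.simple (if Even k then i else j))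
        (cs.wordProd (alternatingWord i j k'))
      have h2 := cs.length_wordProd_le (alternatingWord i j k')
      rw [← h3] at h4
      rw [length_alternatingWord] at h2
      omega
  have h5 := ih (cs.length v) (by omega) v _ rfl hA
  have h6 := ih (cs.length v) (by omega) v _ rfl hB
  rw [hv, rho_mul, alt_apply, map_add, map_smul, map_smul]
  have u1 : 0 ≤ U (kap M i j) (k + 1) := U_nonneg M hij hkm
  have u2 : 0 ≤ U (kap M i j) k := U_nonneg M hij (hkm.imp id (by omega))
  exact add_nonneg (smul_nonneg u1 h6) (smul_nonneg u2 h5)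

lemma neg_of_descent {w : W} {i : B} (h : cs.length (w * cs.simple i) + 1 = cs.length w) :
    rho cs w (al i) ≤ 0 := by
  have := pos_of_ascent cs _ (w * cs.simple i) i rfl (by simp; omega)
  rw [rho_mul, rho_simple, rf_al_self, map_neg] at this
  exact neg_nonneg.mp this

def IsRoot (β : B → ℝ) : Prop := ∃ w i, β = rho cs w (al i)

variable {cs}

lemma IsRoot.bil_self {β : B → ℝ} (h : IsRoot cs β) : bil M β β = 1 := by
  obtain ⟨w, i, rfl⟩ := h
  rw [bil_rho, bil_al_self]

lemma IsRoot.ne_zero {β : B → ℝ} (h : IsRoot cs β) : β ≠ 0 := by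
  intro h0
  have := h.bil_self
  rw [h0] at this; simp at this

lemma IsRoot.map {β : B → ℝ} (h : IsRoot cs β) (w : W) : IsRoot cs (rho cs w β) := by
  obtain ⟨v, i, rfl⟩ := h
  exact ⟨w * v, i, by rw [rho_mul]⟩

lemma IsRoot.neg {β : B → ℝ} (h : IsRoot cs β) : IsRoot cs (-β) := by
  obtain ⟨v, i, rfl⟩ := h
  exact ⟨v * cs.simple i, i, by rw [rho_mul, rho_simple, rf_al_self, map_neg]⟩

lemma isRoot_al (i : B) : IsRoot cs (al i) := ⟨1, i, by rw [rho_one]⟩

lemma IsRoot.pos_or_neg {β : B → ℝ} (h : IsRoot cs β) : 0 ≤ β ∨ β ≤ 0 := by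
  obtain ⟨v, i, rfl⟩ := h
  rcases cs.length_mul_simple v i with h | h
  · exact Or.inl (pos_of_ascent cs _ v i rfl h)
  · exact Or.inr (neg_of_descent cs h)

lemma IsRoot.not_both {β : B → ℝ} (h : IsRoot cs β) (h1 : 0 ≤ β) (h2 : β ≤ 0) : False :=
  h.ne_zero (le_antisymm h2 h1)

lemma rho_injective : Function.Injective (rho cs) := by
  rw [injective_iff_map_eq_one]
  intro w hw
  by_contra h1
  obtain ⟨j, hj⟩ := cs.exists_rightDescent_of_ne_one h1
  rw [isRightDescent_iff] at hj
  have := neg_of_descent cs hj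
  rw [hw] at this
  exact (isRoot_al (cs := cs) j).not_both (al_nonneg j) this

lemma simple_pos {β : B → ℝ} (h : IsRoot cs β) (h0 : 0 ≤ β) {i : B} (hi : β ≠ al i) :
    0 ≤ rf M (al i) β := by
  have hr : IsRoot cs (rf M (al i) β) := by rw [← rho_simple cs]; exact h.map _
  rcases hr.pos_or_neg with h1 | h1
  · exact h1
  exfalso; apply hi
  have hb : β = β i • al i := by
    funext j
    by_cases hj : j = i
    · subst hj; simp [al]
    · have h2 := h1 j
      have h3 := h0 j
      rw [rf_apply] at h2
      simp only [al, Pi.sub_apply, Pi.smul_apply, Pi.single_eq_of_ne hj, smul_zero, sub_zero,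
        Pi.zero_apply] at h2 h3 ⊢
      linarith
  have h2 := h.bil_self
  rw [hb] at h2
  simp only [map_smul, LinearMap.smul_apply, bil_al_self, smul_eq_mul, mul_one] at h2
  have h3 : 0 ≤ β i := h0 i
  have h4 : β i = 1 := by nlinarith
  rw [hb, h4, one_smul]

variable (cs) in
/-- `β` is the positive root of the reflection `t`. -/
structure Lab (t : W) (β : B → ℝ) : Prop where
  refl : cs.IsReflection t
  root : IsRoot cs β
  pos : 0 ≤ β
  eq : rho cs t = rf M β

lemma exists_lab {t : W} (ht : cs.IsReflection t) : ∃ β, Lab cs t β := by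
  obtain ⟨w, i, hw⟩ := ht
  have h : rho cs t = rf M (rho cs w (al i)) := by
    apply LinearMap.ext; intro x
    rw [hw, rho_mul, rho_mul, rho_simple, rho_rf, rho_apply_inv]
  have hr : IsRoot cs (rho cs w (al i)) := ⟨w, i, rfl⟩
  rcases hr.pos_or_neg with h1 | h1
  · exact ⟨_, ⟨w, i, hw⟩, hr, h1, h⟩
  · exact ⟨-_, ⟨w, i, hw⟩, hr.neg, neg_nonneg.mpr h1, by rw [rf_neg, h]⟩

lemma lab_simple (i : B) : Lab cs (cs.simple i) (al i) :=
  ⟨cs.isReflection_simple i, isRoot_al i, al_nonneg i, rho_simple cs i⟩

lemma Lab.unique {t t' : W} {β : B → ℝ} (h : Lab cs t β) (h' : Lab cs t' β) : t = t' :=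
  rho_injective (h.eq.trans h'.eq.symm)

lemma Lab.conj {t : W} {β : B → ℝ} (h : Lab cs t β) {i : B} (hi : β ≠ al i) :
    Lab cs (cs.simple i * t * cs.simple i) (rf M (al i) β) := by
  refine ⟨by simpa using h.refl.conj (cs.simple i), ?_, simple_pos h.root h.pos hi, ?_⟩
  · rw [← rho_simple cs]; exact h.root.map _
  · apply LinearMap.ext; intro x
    rw [rho_mul, rho_mul, h.eq, rho_rf, rho_simple, rf_rf M (bil_al_self M i)]

lemma Lab.lt_of_neg : ∀ (n : ℕ) (x : W) {t : W} {β : B → ℝ}, cs.length x = n → Lab cs t β →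
    rho cs x β ≤ 0 → cs.length (x * t) < cs.length x := by
  intro n
  induction n with
  | zero =>
    intro x t β hx h hn
    rw [length_eq_zero_iff] at hx
    subst hx
    rw [rho_one] at hn
    exact (h.root.not_both h.pos hn).elim
  | succ n ih =>
    intro x t β hx h hn
    have h1 : x ≠ 1 := by rintro rfl; simp at hx
    obtain ⟨j, hj⟩ := cs.exists_rightDescent_of_ne_one h1
    rw [isRightDescent_iff] at hj
    by_cases hb : β = al j
    · subst hb
      rw [h.unique (lab_simple j)]; omega
    · have h2 := ih (x * cs.simple j) (by omega) (h.conj hb) (by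
        rw [rho_mul, rho_simple, rf_rf M (bil_al_self M j)]; exact hn)
      have h3 : x * t = (x * cs.simple j * (cs.simple j * t * cs.simple j)) * cs.simple j := by
        simp [mul_assoc]
      have h4 := cs.length_mul_le (x * cs.simple j * (cs.simple j * t * cs.simple j))
        (cs.simple j)
      rw [← h3, length_simple] at h4
      omega

lemma Lab.apply_self {t : W} {β : B → ℝ} (h : Lab cs t β) : rho cs t β = -β := by
  rw [h.eq, rf_self M h.root.bil_self]

lemma Lab.gt_of_pos {x t : W} {β : B → ℝ} (h : Lab cs t β) (hp : 0 ≤ rho cs x β) :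
    cs.length x < cs.length (x * t) := by
  have := Lab.lt_of_neg _ (x * t) rfl h (by
    rw [rho_mul, h.apply_self, map_neg]; exact neg_nonpos.mpr hp)
  rwa [mul_assoc, h.refl.mul_self, mul_one] at this

lemma Lab.pos_of_gt {x t : W} {β : B → ℝ} (h : Lab cs t β)
    (hl : cs.length x < cs.length (x * t)) : 0 ≤ rho cs x β := by
  rcases (h.root.map x).pos_or_neg with h1 | h1
  · exact h1
  · have := Lab.lt_of_neg _ x rfl h h1; omega

variable (cs) in
def Inv (x : W) : Set (B → ℝ) := {γ | IsRoot cs γ ∧ 0 ≤ γ ∧ rho cs x γ ≤ 0}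

lemma inv_card : ∀ (n : ℕ) (x : W), cs.length x = n →
    (Inv cs x).Finite ∧ (Inv cs x).ncard = n := by
  intro n
  induction n with
  | zero =>
    intro x hx
    rw [length_eq_zero_iff] at hx
    subst hx
    have : Inv cs (1 : W) = ∅ := by
      ext γ
      simp only [Inv, rho_one, Set.mem_ofPred_eq, Set.mem_empty_iff_false, iff_false]
      rintro ⟨h1, h2, h3⟩
      exact h1.not_both h2 h3
    simp [this]
  | succ n ih =>
    intro x hx
    have h1 : x ≠ 1 := by rintro rfl; simp at hx
    obtain ⟨j, hj⟩ := cs.exists_rightDescent_of_ne_one h1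
    rw [isRightDescent_iff] at hj
    obtain ⟨hf, hc⟩ := ih (x * cs.simple j) (by omega)
    have hinj : Function.Injective (rf M (al j)) := fun a b hab => by
      have := congrArg (rf M (al j)) hab
      rwa [rf_rf M (bil_al_self M j), rf_rf M (bil_al_self M j)] at this
    have hnot : al j ∉ Inv cs (x * cs.simple j) := by
      rintro ⟨-, -, h3⟩
      have := pos_of_ascent cs _ (x * cs.simple j) j rfl (by simp; omega)
      exact ((isRoot_al j).map _).not_both this h3
    have he : Inv cs x = insert (al j) (rf M (al j) '' Inv cs (x * cs.simple j)) := by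
      ext γ
      constructor
      · rintro ⟨h1, h2, h3⟩
        by_cases hb : γ = al j
        · exact Or.inl hb
        · refine Or.inr ⟨rf M (al j) γ, ⟨?_, simple_pos h1 h2 hb, ?_⟩,
            rf_rf M (bil_al_self M j) γ⟩
          · rw [← rho_simple cs]; exact h1.map _
          · rw [rho_mul, rho_simple, rf_rf M (bil_al_self M j)]; exact h3
      · rintro (rfl | ⟨δ, ⟨h1, h2, h3⟩, rfl⟩)
        · exact ⟨isRoot_al j, al_nonneg j, neg_of_descent cs hj⟩
        · refine ⟨?_, simple_pos h1 h2 (by rintro rfl; exact hnot ⟨h1, h2, h3⟩), ?_⟩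
          · rw [← rho_simple cs]; exact h1.map _
          · rwa [rho_mul, rho_simple] at h3
    have hnot' : al j ∉ rf M (al j) '' Inv cs (x * cs.simple j) := by
      rintro ⟨δ, ⟨h1, h2, h3⟩, h4⟩
      have : δ = -al j := by
        apply hinj; rw [h4, map_neg, rf_al_self, neg_neg]
      rw [this] at h2
      exact (isRoot_al (cs := cs) j).not_both (al_nonneg j) (neg_nonneg.mp h2)
    rw [he]
    refine ⟨(hf.image _).insert _, ?_⟩
    rw [Set.ncard_insert_of_notMem hnot' (hf.image _), Set.ncard_image_of_injective _ hinj, hc]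

lemma cover_ext {x t : W} {β γ : B → ℝ} (h : Lab cs t β)
    (hl : cs.length (x * t) = cs.length x + 1) (hγ : IsRoot cs γ) (h0 : 0 ≤ γ)
    (h1 : 0 ≤ rho cs x γ) (h2 : rf M β γ ≤ 0) (h3 : rho cs x (rf M β γ) ≤ 0) : γ = β := by
  by_contra hne
  classical
  obtain ⟨hf, hc⟩ := inv_card (cs := cs) _ x rfl
  obtain ⟨hf', hc'⟩ := inv_card (cs := cs) _ (x * t) rfl
  have hxb : 0 ≤ rho cs x β := h.pos_of_gt (by omega)
  have hroot : ∀ δ, IsRoot cs δ → IsRoot cs (rf M β δ) := fun δ hδ => by
    rw [← h.eq]; exact hδ.map _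
  have hrr := rf_rf M h.root.bil_self
  let θ : (B → ℝ) → (B → ℝ) := fun δ => if 0 ≤ rf M β δ then rf M β δ else δ
  have hinj : Set.InjOn θ (Inv cs x) := by
    rintro a ⟨a1, a2, -⟩ b ⟨b1, b2, -⟩ hab
    simp only [θ] at hab
    split_ifs at hab with c1 c2 c2
    · have := congrArg (rf M β) hab
      rwa [hrr, hrr] at this
    · exfalso; apply c2; rw [← hab, hrr]; exact a2
    · exfalso; apply c1; rw [hab, hrr]; exact b2
    · exact hab
  have hsub : insert β (insert γ (θ '' Inv cs x)) ⊆ Inv cs (x * t) := by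
    rintro δ (rfl | rfl | ⟨a, ⟨a1, a2, a3⟩, rfl⟩)
    · refine ⟨h.root, h.pos, ?_⟩
      rw [rho_mul, h.apply_self, map_neg]; exact neg_nonpos.mpr hxb
    · refine ⟨hγ, h0, ?_⟩
      rw [rho_mul, h.eq]; exact h3
    · simp only [θ]
      split_ifs with c1
      · refine ⟨hroot a a1, c1, ?_⟩
        rw [rho_mul, h.eq, hrr]; exact a3
      · refine ⟨a1, a2, ?_⟩
        rw [rho_mul, h.eq]
        have c2 : rf M β a ≤ 0 := (hroot a a1).pos_or_neg.resolve_left c1
        rcases ((hroot a a1).map x).pos_or_neg with c3 | c3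
        swap
        · exact c3
        exfalso
        -- a - rf a = m β
        have e1 : a - rf M β a = (2 * bil M a β) • β := by rw [rf_apply]; module
        have e2 : 0 ≤ a - rf M β a := sub_nonneg.mpr (c2.trans a2)
        have e3 : rho cs x (a - rf M β a) ≤ 0 := by
          rw [map_sub]; exact sub_nonpos.mpr (a3.trans c3)
        rcases lt_trichotomy (2 * bil M a β) 0 with m | m | m
        · rw [e1] at e2
          have : β ≤ 0 := by
            intro j
            have := e2 j
            simp only [Pi.smul_apply, smul_eq_mul, Pi.zero_apply] at this ⊢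
            nlinarith
          exact h.root.not_both h.pos this
        · rw [m, zero_smul, sub_eq_zero] at e1
          apply c1; rw [← e1]; exact a2
        · rw [e1, map_smul] at e3
          have : rho cs x β ≤ 0 := by
            intro j
            have := e3 j
            simp only [Pi.smul_apply, smul_eq_mul, Pi.zero_apply] at this ⊢
            nlinarith
          exact (h.root.map x).not_both hxb this
  have hn1 : ∀ δ, IsRoot cs δ → rf M β δ ≤ 0 → 0 ≤ rho cs x δ → δ ∉ θ '' Inv cs x := by
    rintro δ d1 d2 d3 ⟨a, ⟨a1, a2, a3⟩, ha⟩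
    simp only [θ] at ha
    split_ifs at ha with c1
    · rw [← ha, hrr] at d2
      exact a1.not_both a2 d2
    · subst ha
      exact (a1.map x).not_both d3 a3
  have hg := hn1 γ hγ h2 h1
  have hb := hn1 β h.root (by rw [rf_self M h.root.bil_self]; exact neg_nonpos.mpr h.pos) hxb
  have hb' : β ∉ insert γ (θ '' Inv cs x) := by
    rintro (h5 | h5)
    · exact hne h5.symm
    · exact hb h5
  have := Set.ncard_le_ncard hsub hf'
  rw [Set.ncard_insert_of_notMem hb' ((hf.image _).insert _),
    Set.ncard_insert_of_notMem hg (hf.image _), hinj.ncard_image, hc, hc'] at this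
  omega

noncomputable def hgt : (B → ℝ) →ₗ[ℝ] ℝ := ∑ i, LinearMap.proj i

omit [DecidableEq B] in
lemma hgt_apply (x : B → ℝ) : hgt x = ∑ i, x i := by simp [hgt]

lemma IsRoot.hgt_pos {β : B → ℝ} (h : IsRoot cs β) (h0 : 0 ≤ β) : 0 < hgt β := by
  rw [hgt_apply]
  apply lt_of_le_of_ne (Finset.sum_nonneg fun i _ => h0 i)
  intro he
  apply h.ne_zero
  funext i
  exact (Finset.sum_eq_zero_iff_of_nonneg fun i _ => h0 i).mp he.symm i (Finset.mem_univ i)

lemma IsRoot.neg_of_hgt {β : B → ℝ} (h : IsRoot cs β) (h0 : hgt β < 0) : β ≤ 0 := by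
  rcases h.pos_or_neg with h1 | h1
  · have := h.hgt_pos h1; linarith
  · exact h1

variable (cs) in
/-- positive roots that are not inversions of `x` -/
def Non (x : W) : Set (B → ℝ) := {γ | IsRoot cs γ ∧ 0 ≤ γ ∧ 0 ≤ rho cs x γ}

lemma exists_sep {x t : W} {β : B → ℝ} (h : Lab cs t β)
    (hl : cs.length (x * t) = cs.length x + 1) :
    ∃ g : (B → ℝ) →ₗ[ℝ] ℝ, g β = 0 ∧ ∀ γ ∈ Non cs x, γ ≠ β → g γ < 0 := by
  have hxb : 0 ≤ rho cs x β := h.pos_of_gt (by omega)
  have p1 := h.root.hgt_pos h.pos
  have p2 := (h.root.map x).hgt_pos hxb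
  refine ⟨(2 : ℝ) • (bil M).flip β - (hgt β)⁻¹ • hgt -
    (hgt (rho cs x β))⁻¹ • (hgt ∘ₗ rho cs x), ?_, ?_⟩
  · simp only [LinearMap.sub_apply, LinearMap.smul_apply, LinearMap.flip_apply, h.root.bil_self,
      smul_eq_mul, LinearMap.comp_apply]
    field_simp; ring
  · rintro γ ⟨g1, g2, g3⟩ hne
    by_contra hc
    push Not at hc
    simp only [LinearMap.sub_apply, LinearMap.smul_apply, LinearMap.flip_apply,
      smul_eq_mul, LinearMap.comp_apply] at hc
    have q1 := g1.hgt_pos g2
    have q2 := (g1.map x).hgt_pos g3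
    have hr : IsRoot cs (rf M β γ) := by rw [← h.eq]; exact g1.map _
    have r1 : 0 < (hgt β)⁻¹ * hgt γ := by positivity
    have r2 : 0 < (hgt (rho cs x β))⁻¹ * hgt (rho cs x γ) := by positivity
    apply hne
    apply cover_ext h hl g1 g2 g3
    · apply hr.neg_of_hgt
      rw [rf_apply, map_sub, map_smul, smul_eq_mul]
      have : hgt γ = (hgt β)⁻¹ * hgt γ * hgt β := by field_simp
      nlinarith
    · apply (hr.map x).neg_of_hgt
      rw [rf_apply, map_sub, map_smul, map_sub, map_smul, smul_eq_mul]
      have : hgt (rho cs x γ) = (hgt (rho cs x β))⁻¹ * hgt (rho cs x γ) * hgt (rho cs x β) := by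
        field_simp
      nlinarith

end Pool.Agent.MP_8f5299_co
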