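import Pool.Agent.MP_8f5299_co.Bruhat

namespace Pool.Agent.MP_8f5299_co

open CoxeterSystem Module

section Cone

variable {V : Type*} [AddCommGroup V] [Module ℝ V]

inductive InCone (S : Set V) : V → Prop
  | zero : InCone S 0
  | step {k γ : V} {c : ℝ} : InCone S k → γ ∈ S → 0 ≤ c → InCone S (k + c • γ)

lemma InCone.ind {S : Set V} {P : V → Prop} (h0 : P 0) (hS : ∀ γ ∈ S, P γ)
    (hadd : ∀ a b, P a → P b → P (a + b)) (hsm : ∀ (c : ℝ) a, 0 ≤ c → P a → P (c • a))
    {k : V} (h : InCone S k) : P k := by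
  induction h with
  | zero => exact h0
  | step _ hγ hc ih => exact hadd _ _ ih (hsm _ _ hc (hS _ hγ))

lemma InCone.add {S : Set V} {a b : V} (ha : InCone S a) (hb : InCone S b) :
    InCone S (a + b) := by
  induction hb with
  | zero => simpa using ha
  | step _ hγ hc ih => rw [← add_assoc]; exact ih.step hγ hc

lemma InCone.smul {S : Set V} {a : V} (ha : InCone S a) {c : ℝ} (hc : 0 ≤ c) :
    InCone S (c • a) := by
  induction ha with
  | zero => simpa using InCone.zero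
  | step _ hγ hd ih => rw [smul_add, smul_smul]; exact ih.step hγ (mul_nonneg hc hd)

lemma InCone.of_mem {S : Set V} {γ : V} (h : γ ∈ S) : InCone S γ := by
  simpa using InCone.zero.step h zero_le_one

lemma InCone.map {S T : Set V} (f : V →ₗ[ℝ] V) (hf : ∀ γ ∈ S, InCone T (f γ)) {k : V}
    (h : InCone S k) : InCone T (f k) :=
  h.ind (P := fun k => InCone T (f k)) (by simpa using InCone.zero) hf
    (fun a b ha hb => by simpa using ha.add hb) (fun c a hc ha => by simpa using ha.smul hc)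

lemma InCone.mono {S T : Set V} (hf : S ⊆ T) {k : V} (h : InCone S k) : InCone T k :=
  h.map LinearMap.id fun _ hγ => InCone.of_mem (hf hγ)

lemma InCone.mem {S : Set V} {N : Submodule ℝ V} (hf : ∀ γ ∈ S, γ ∈ N) {k : V}
    (h : InCone S k) : k ∈ N :=
  h.ind (P := fun k => k ∈ N) N.zero_mem hf (fun _ _ => N.add_mem) (fun c _ _ => N.smul_mem c)

lemma InCone.nonpos {S : Set V} (g : V →ₗ[ℝ] ℝ) (hg : ∀ γ ∈ S, g γ ≤ 0) {k : V}
    (h : InCone S k) : g k ≤ 0 :=
  h.ind (P := fun k => g k ≤ 0) (by simp) hg (fun a b ha hb => by rw [map_add]; linarith)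
    (fun c a hc ha => by rw [map_smul, smul_eq_mul]; nlinarith)

lemma InCone.cases' {S : Set V} {k : V} (h : InCone S k) :
    k = 0 ∨ ∃ k' γ, ∃ c : ℝ, InCone S k' ∧ γ ∈ S ∧ 0 < c ∧ k = k' + c • γ := by
  induction h with
  | zero => exact Or.inl rfl
  | @step k γ c hk hγ hc ih =>
    rcases hc.eq_or_lt with rfl | hc
    · simpa using ih
    · exact Or.inr ⟨k, γ, c, hk, hγ, hc, rfl⟩

end Cone

variable {B : Type*} [Fintype B] [DecidableEq B] {M : CoxeterMatrix B}
variable {W : Type*} [Group W] {cs : CoxeterSystem M W}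

variable (cs) in
noncomputable def Mov (g : W) : Submodule ℝ (B → ℝ) := LinearMap.range (rho cs g - 1)

variable (cs) in
noncomputable def Vs (x y : W) : Submodule ℝ (B → ℝ) := Mov cs (x⁻¹ * y)

lemma mem_mov {g : W} {z : B → ℝ} : z ∈ Mov cs g ↔ ∃ y, rho cs g y - y = z := by
  simp [Mov]

lemma Vs_le (x y z : W) : Vs cs x z ≤ Vs cs x y ⊔ Vs cs y z := by
  intro k hk
  obtain ⟨p, rfl⟩ := mem_mov.mp hk
  have : x⁻¹ * z = (x⁻¹ * y) * (y⁻¹ * z) := by group
  rw [this, rho_mul]
  have e : rho cs (x⁻¹ * y) (rho cs (y⁻¹ * z) p) - p =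
      (rho cs (x⁻¹ * y) (rho cs (y⁻¹ * z) p) - rho cs (y⁻¹ * z) p) +
        (rho cs (y⁻¹ * z) p - p) := by abel
  rw [e]
  exact Submodule.add_mem_sup (mem_mov.mpr ⟨_, rfl⟩) (mem_mov.mpr ⟨_, rfl⟩)

lemma Vs_self (x : W) : Vs cs x x = ⊥ := by simp [Vs, Mov]

lemma Vs_conj {x y : W} {i : B} {z : B → ℝ} (h : z ∈ Vs cs x y) :
    rf M (al i) z ∈ Vs cs (x * cs.simple i) (y * cs.simple i) := by
  obtain ⟨p, rfl⟩ := mem_mov.mp h
  refine mem_mov.mpr ⟨rf M (al i) p, ?_⟩
  have : (x * cs.simple i)⁻¹ * (y * cs.simple i) = cs.simple i * ((x⁻¹ * y) * cs.simple i) := by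
    simp [mul_assoc]
  rw [this, rho_mul, rho_mul, rho_simple, rf_rf M (bil_al_self M i), map_sub]

variable (cs) in
def Edge (x a : W) (β : B → ℝ) : Prop :=
  ∃ t, Lab cs t β ∧ a = x * t ∧ cs.length a = cs.length x + 1

lemma BCov.edge {x a : W} (h : BCov cs x a) : ∃ β, Edge cs x a β := by
  obtain ⟨hl, t, ht, rfl⟩ := h
  obtain ⟨β, hβ⟩ := exists_lab ht
  exact ⟨β, t, hβ, rfl, hl⟩

lemma Edge.bcov {x a : W} {β : B → ℝ} (h : Edge cs x a β) : BCov cs x a := by
  obtain ⟨t, h1, h2, h3⟩ := h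
  exact ⟨h3, t, h1.refl, h2⟩

lemma Edge.unique {x a a' : W} {β : B → ℝ} (h : Edge cs x a β) (h' : Edge cs x a' β) :
    a = a' := by
  obtain ⟨t, h1, rfl, -⟩ := h
  obtain ⟨t', h1', rfl, -⟩ := h'
  rw [h1.unique h1']

lemma Lab.root_unique {t : W} {β β' : B → ℝ} (h : Lab cs t β) (h' : Lab cs t β') : β = β' := by
  have e := h.apply_self
  rw [h'.eq, rf_apply] at e
  have e2 : β = (bil M β β') • β' := by
    have : (2 : ℝ) • β = (2 : ℝ) • ((bil M β β') • β') := by
      rw [smul_smul]; linear_combination (norm := module) e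
    exact smul_right_injective _ two_ne_zero this
  have e3 := h.root.bil_self
  set c := bil M β β'
  rw [e2] at e3
  simp only [map_smul, LinearMap.smul_apply, h'.root.bil_self, smul_eq_mul, mul_one] at e3
  have p1 := h.root.hgt_pos h.pos
  have p2 := h'.root.hgt_pos h'.pos
  rw [e2, map_smul, smul_eq_mul] at p1
  have : 0 < c := by nlinarith
  have : c = 1 := by nlinarith
  rw [e2, this, one_smul]

lemma Edge.lab_unique {x a : W} {β β' : B → ℝ} (h : Edge cs x a β) (h' : Edge cs x a β') :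
    β = β' := by
  obtain ⟨t, h1, rfl, -⟩ := h
  obtain ⟨t', h1', h2, -⟩ := h'
  rw [← mul_left_cancel h2] at h1'
  exact h1.root_unique h1'

lemma Edge.non {x a : W} {β : B → ℝ} (h : Edge cs x a β) : β ∈ Non cs x := by
  obtain ⟨t, h1, rfl, h3⟩ := h
  exact ⟨h1.root, h1.pos, h1.pos_of_gt (by omega)⟩

lemma Edge.sep {x a : W} {β : B → ℝ} (h : Edge cs x a β) :
    ∃ g : (B → ℝ) →ₗ[ℝ] ℝ, g β = 0 ∧ ∀ γ ∈ Non cs x, γ ≠ β → g γ < 0 := by
  obtain ⟨t, h1, rfl, h3⟩ := h
  exact exists_sep h1 h3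

lemma Edge.vs {x a : W} {β : B → ℝ} (h : Edge cs x a β) : Vs cs x a = ℝ ∙ β := by
  obtain ⟨t, h1, rfl, -⟩ := h
  apply le_antisymm
  · intro z hz
    obtain ⟨p, rfl⟩ := mem_mov.mp hz
    rw [inv_mul_cancel_left, h1.eq, rf_apply, Submodule.mem_span_singleton]
    exact ⟨-(2 * bil M p β), by module⟩
  · rw [Submodule.span_singleton_le_iff_mem]
    refine mem_mov.mpr ⟨(-1 / 2 : ℝ) • β, ?_⟩
    rw [inv_mul_cancel_left, map_smul, h1.apply_self]; module

lemma Edge.mem_vs {x a : W} {β : B → ℝ} (h : Edge cs x a β) : β ∈ Vs cs x a := by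
  rw [h.vs]; exact Submodule.mem_span_singleton_self β

lemma Up.edge {x : W} {i : B} (h : Up cs x i) : Edge cs x (x * cs.simple i) (al i) :=
  ⟨_, lab_simple i, rfl, h⟩

lemma Dn.edge {x : W} {i : B} (h : Dn cs x i) : Edge cs (x * cs.simple i) x (al i) := by
  simpa using h.up.edge

lemma Edge.conj {x a : W} {β : B → ℝ} (h : Edge cs x a β) {i : B} (hi : β ≠ al i)
    (hl : cs.length (a * cs.simple i) = cs.length (x * cs.simple i) + 1) :
    Edge cs (x * cs.simple i) (a * cs.simple i) (rf M (al i) β) := by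
  obtain ⟨t, h1, rfl, -⟩ := h
  exact ⟨_, h1.conj hi, by simp [mul_assoc], hl⟩

lemma Edge.ne_of_dn {x a : W} {β : B → ℝ} (h : Edge cs x a β) {i : B} (hx : Dn cs x i) :
    β ≠ al i := by
  rintro rfl
  exact ((isRoot_al i).map x).not_both h.non.2.2 (neg_of_descent cs hx)

lemma Edge.ne_of_up {x a : W} {β : B → ℝ} (h : Edge cs x a β) {i : B} (ha : Up cs a i) :
    β ≠ al i := by
  rintro rfl
  obtain ⟨t, h1, rfl, h3⟩ := h
  rw [h1.unique (lab_simple i)] at ha h3
  unfold Up at ha; simp at ha; omega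

lemma Edge.dd {x a : W} {β : B → ℝ} (h : Edge cs x a β) {i : B} (hx : Dn cs x i)
    (ha : Dn cs a i) : Edge cs (x * cs.simple i) (a * cs.simple i) (rf M (al i) β) :=
  h.conj (h.ne_of_dn hx) (h.bcov.dd hx ha).1

lemma Edge.uu {x a : W} {β : B → ℝ} (h : Edge cs x a β) {i : B} (hx : Up cs x i)
    (ha : Up cs a i) : Edge cs (x * cs.simple i) (a * cs.simple i) (rf M (al i) β) :=
  h.conj (h.ne_of_up ha) (h.bcov.uu hx ha).1

lemma rank_le {x y : W} (h : Le cs x y) : finrank ℝ (Vs cs x y) + cs.length x ≤ cs.length y := by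
  induction h with
  | refl => simp [Vs_self]
  | @tail b c _ h2 ih =>
    obtain ⟨β, hβ⟩ := h2.edge
    have h3 := Submodule.finrank_mono (Vs_le (cs := cs) x b c)
    have h4 := Submodule.finrank_sup_add_finrank_inf_eq (Vs cs x b) (Vs cs b c)
    have h5 : finrank ℝ (Vs cs b c) ≤ 1 := by
      rw [hβ.vs]; exact (finrank_span_le_card _).trans (by simp)
    have := h2.1
    omega

variable (cs) in
def Toric (u v : W) : Prop :=
  Le cs u v ∧ finrank ℝ (Vs cs u v) + cs.length u = cs.length v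

lemma Toric.split {x y z : W} (h : Toric cs x z) (h1 : Le cs x y) (h2 : Le cs y z) :
    Toric cs x y ∧ Toric cs y z ∧ Vs cs x y ⊔ Vs cs y z = Vs cs x z ∧
      Vs cs x y ⊓ Vs cs y z = ⊥ := by
  have h3 := Submodule.finrank_mono (Vs_le (cs := cs) x y z)
  have h4 := Submodule.finrank_sup_add_finrank_inf_eq (Vs cs x y) (Vs cs y z)
  have h5 := rank_le h1
  have h6 := rank_le h2
  have h7 := h.2
  refine ⟨⟨h1, by omega⟩, ⟨h2, by omega⟩, ?_, ?_⟩
  · exact (Submodule.eq_of_le_of_finrank_le (Vs_le x y z) (by omega)).symm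
  · exact Submodule.finrank_eq_zero.mp (by omega)

lemma Toric.left {x y z : W} (h : Toric cs x z) (h1 : Le cs x y) (h2 : Le cs y z) :
    Toric cs x y := (h.split h1 h2).1

lemma Toric.right {x y z : W} (h : Toric cs x z) (h1 : Le cs x y) (h2 : Le cs y z) :
    Toric cs y z := (h.split h1 h2).2.1

lemma Toric.le_left {x y z : W} (h : Toric cs x z) (h1 : Le cs x y) (h2 : Le cs y z) :
    Vs cs x y ≤ Vs cs x z := (h.split h1 h2).2.2.1 ▸ le_sup_left

lemma Toric.le_right {x y z : W} (h : Toric cs x z) (h1 : Le cs x y) (h2 : Le cs y z) :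
    Vs cs y z ≤ Vs cs x z := (h.split h1 h2).2.2.1 ▸ le_sup_right

lemma Toric.disj {x y z : W} (h : Toric cs x z) (h1 : Le cs x y) (h2 : Le cs y z)
    {k : B → ℝ} (k1 : k ∈ Vs cs x y) (k2 : k ∈ Vs cs y z) : k = 0 := by
  have : k ∈ Vs cs x y ⊓ Vs cs y z := ⟨k1, k2⟩
  rwa [(h.split h1 h2).2.2.2, Submodule.mem_bot] at this

lemma Toric.dd {u v : W} {i : B} (h : Toric cs u v) (hu : Dn cs u i) (hv : Dn cs v i) :
    Toric cs (u * cs.simple i) (v * cs.simple i) := by
  refine ⟨h.1.dd hu hv, le_antisymm (rank_le (h.1.dd hu hv)) ?_⟩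
  have hinj : Function.Injective (rf M (al i)) := fun a b hab => by
    have := congrArg (rf M (al i)) hab
    rwa [rf_rf M (bil_al_self M i), rf_rf M (bil_al_self M i)] at this
  have h1 : (Vs cs u v).map (rf M (al i)) ≤ Vs cs (u * cs.simple i) (v * cs.simple i) := by
    rintro _ ⟨z, hz, rfl⟩; exact Vs_conj hz
  have h2 := Submodule.finrank_mono h1
  have h3 := (Submodule.equivMapOfInjective _ hinj (Vs cs u v)).finrank_eq
  have := h.2
  unfold Dn at hu hv
  omega

variable (cs) in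
def At (u v : W) : Set (B → ℝ) := {β | ∃ a, Edge cs u a β ∧ Le cs a v}

variable (cs) in
def K (u v : W) : (B → ℝ) → Prop := InCone (At cs u v)

lemma K.of {u v a : W} {β : B → ℝ} (he : Edge cs u a β) (hav : Le cs a v) : K cs u v β :=
  InCone.of_mem (S := At cs u v) ⟨a, he, hav⟩

lemma K.smul {u v : W} {k : B → ℝ} (h : K cs u v k) {c : ℝ} (hc : 0 ≤ c) : K cs u v (c • k) :=
  InCone.smul h hc

lemma K.mono {u v v' : W} {k : B → ℝ} (h : K cs u v k) (hv : Le cs v v') : K cs u v' k := by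
  refine InCone.mono (S := At cs u v) ?_ h
  rintro _ ⟨a, h1, h2⟩
  exact ⟨a, h1, h2.trans hv⟩

lemma K.nonneg {u v : W} {k : B → ℝ} (h : K cs u v k) : 0 ≤ k := by
  refine InCone.ind (S := At cs u v) (P := fun k => (0 : B → ℝ) ≤ k) le_rfl ?_
    (fun _ _ => add_nonneg) (fun _ _ h1 h2 => smul_nonneg h1 h2) h
  rintro _ ⟨_, h1, _⟩
  exact h1.non.2.1

lemma K.mem {u v : W} {k : B → ℝ} (h : K cs u v k) (ht : Toric cs u v) : k ∈ Vs cs u v := by
  refine InCone.mem (S := At cs u v) ?_ h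
  rintro _ ⟨_, h1, h2⟩
  exact ht.le_left h1.bcov.le h2 h1.mem_vs

lemma K.ext {u v a : W} {β : B → ℝ} (h : K cs u v β) (he : Edge cs u a β) : Le cs a v := by
  obtain ⟨g, g0, g1⟩ := he.sep
  rcases InCone.cases' h with h0 | ⟨k, γ, c, hk, ⟨b, hb, hbv⟩, hc, e⟩
  · exact (he.non.1.ne_zero h0).elim
  · have hk' : g k ≤ 0 := hk.nonpos g fun δ hδ' => by
      obtain ⟨_, hd, _⟩ := hδ'
      by_cases hδ : δ = β
      · rw [hδ, g0]
      · exact (g1 δ hd.non hδ).le
    by_cases hγ : γ = β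
    · subst hγ; rw [he.unique hb]; exact hbv
    · exfalso
      have := g1 γ hb.non hγ
      rw [e, map_add, map_smul, smul_eq_mul] at g0
      nlinarith

variable (cs) in
def Star (u v : W) : Prop := ∀ a β, Edge cs u a β → Le cs a v → ∀ k, K cs u v k →
  ∃ (μ : ℝ) (k' : B → ℝ), K cs a v k' ∧ k = μ • β + k'

variable (cs) in
def Mp (u v : W) : Prop := ∀ a β y, Edge cs u a β → Le cs a v → Le cs u y → Le cs y v →
  β ∈ Vs cs u y → Le cs a y

lemma decomp {v y : W} (hs : ∀ x, Toric cs x v → Star cs x v) (hyv : Le cs y v) {x : W}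
    (hxy : Le cs x y) : Toric cs x v → ∀ k, K cs x v k →
      ∃ k0 k1, k0 ∈ Vs cs x y ∧ K cs y v k1 ∧ k = k0 + k1 := by
  induction hxy using Relation.ReflTransGen.head_induction_on with
  | refl => intro _ k hk; exact ⟨0, k, Submodule.zero_mem _, hk, by simp⟩
  | @head x a h1 h2 ih =>
    intro ht k hk
    have h2' : Le cs a y := h2
    obtain ⟨β, hβ⟩ := h1.edge
    obtain ⟨μ, k', hk', rfl⟩ := hs x ht a β hβ (h2'.trans hyv) k hk
    obtain ⟨k0, k1, a0, a1, rfl⟩ := ih (ht.right h1.le (h2'.trans hyv)) k' hk'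
    have ht' := ht.left (h1.le.trans h2') hyv
    exact ⟨μ • β + k0, k1, Submodule.add_mem _
      (Submodule.smul_mem _ _ (ht'.le_left h1.le h2' hβ.mem_vs)) (ht'.le_right h1.le h2' a0), a1,
      by abel⟩

lemma face {v y x : W} (hs : ∀ x, Toric cs x v → Star cs x v) (hyv : Le cs y v)
    (hxy : Le cs x y) (ht : Toric cs x v) {k k' : B → ℝ} (hk : K cs x v k) (hk' : K cs x v k')
    (h : k + k' ∈ Vs cs x y) : k ∈ Vs cs x y := by
  obtain ⟨a0, a1, a2, a3, rfl⟩ := decomp hs hyv hxy ht k hk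
  obtain ⟨b0, b1, b2, b3, rfl⟩ := decomp hs hyv hxy ht k' hk'
  have h1 : a1 + b1 ∈ Vs cs x y := by
    have := Submodule.sub_mem _ h (Submodule.add_mem _ a2 b2)
    convert this using 1; abel
  have h2 : a1 + b1 = 0 := ht.disj hxy hyv h1
    (Submodule.add_mem _ (a3.mem (ht.right hxy hyv)) (b3.mem (ht.right hxy hyv)))
  have h3 : a1 = 0 := le_antisymm (by
    have := b3.nonneg
    calc a1 ≤ a1 + b1 := le_add_of_nonneg_right this
      _ = 0 := h2) a3.nonneg
  rw [h3, add_zero]; exact a2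

lemma non_conj {x : W} {i : B} {γ : B → ℝ} (h : γ ∈ Non cs x) (hne : γ ≠ al i) :
    rf M (al i) γ ∈ Non cs (x * cs.simple i) := by
  refine ⟨?_, simple_pos h.1 h.2.1 hne, ?_⟩
  · rw [← rho_simple cs]; exact h.1.map _
  · rw [rho_mul, rho_simple, rf_rf M (bil_al_self M i)]; exact h.2.2

lemma plane {u b : W} {i : B} {β : B → ℝ} (hu : Dn cs u i) (hb : Up cs b i)
    (he : Edge cs u b β) (ht : Toric cs (u * cs.simple i) b) :
    ∃ a β', ∃ p q : ℝ, Edge cs (u * cs.simple i) a β' ∧ Le cs a b ∧ 0 ≤ p ∧ 0 < q ∧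
      rf M (al i) β = p • β' + q • al i := by
  obtain ⟨a, hne, h1, h2⟩ := diamond _ rfl hu.bcov he.bcov
  obtain ⟨β', hβ'⟩ := h1.edge
  have hmem : β' ∈ Vs cs (u * cs.simple i) u ⊔ Vs cs u b := by
    rw [(ht.split hu.bcov.le he.bcov.le).2.2.1]
    exact ht.le_left h1.le h2.le hβ'.mem_vs
  rw [hu.edge.vs, he.vs, Submodule.mem_sup] at hmem
  obtain ⟨y, hy, z, hz, hyz⟩ := hmem
  obtain ⟨p, rfl⟩ := Submodule.mem_span_singleton.mp hy
  obtain ⟨q, rfl⟩ := Submodule.mem_span_singleton.mp hz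
  set δ := rf M (al i) β with hδ
  have hδn : δ ∈ Non cs (u * cs.simple i) := non_conj he.non (he.ne_of_dn hu)
  have e1 : β' = (p + q * (2 * bil M β (al i))) • al i + q • δ := by
    rw [← hyz, hδ, rf_apply]; module
  set p' := p + q * (2 * bil M β (al i))
  have n1 : al i ≠ β' := by
    intro h; rw [← h] at hβ'; exact hne (hβ'.unique hu.edge)
  have n2 : δ ≠ β' := by
    intro h
    obtain ⟨t, t1, t2, t3⟩ := he
    obtain ⟨t', t1', t2', t3'⟩ := hβ'
    have := (t1.conj (Edge.ne_of_dn ⟨t, t1, t2, t3⟩ hu)).unique (by rw [← hδ, h]; exact t1')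
    have e : a = b * cs.simple i := by rw [t2', ← this, t2]; simp [mul_assoc]
    unfold Up at hb; unfold Dn at hu
    rw [← e] at hb; omega
  have n3 : δ ≠ al i := by
    intro h
    have : β = -al i := by
      rw [← rf_rf M (bil_al_self M i) β, ← hδ, h, rf_al_self]
    exact he.non.1.not_both he.non.2.1 (by rw [this]; exact neg_nonpos.mpr (al_nonneg i))
  obtain ⟨g, g0, g1⟩ := hβ'.sep
  obtain ⟨f, f0, f1⟩ := hu.edge.sep
  have ga := g1 _ hu.edge.non n1
  have gd := g1 _ hδn n2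
  have fb := f1 _ hβ'.non n1.symm
  have fd := f1 _ hδn n3
  rw [e1, map_add, map_smul, map_smul, smul_eq_mul, smul_eq_mul] at g0 fb
  rw [f0] at fb
  have hq : 0 < q := by nlinarith
  have hp : p' < 0 := by nlinarith
  refine ⟨a, β', q⁻¹, -p' / q, hβ', h2.le, by positivity, div_pos (by linarith) hq, ?_⟩
  rw [e1, smul_add, smul_smul, smul_smul, inv_mul_cancel₀ hq.ne', one_smul]
  have : q⁻¹ * p' = -(-p' / q) := by field_simp
  rw [this]; module

lemma lemE {u v : W} {i : B} (hv : Dn cs v i) (huv : Le cs u (v * cs.simple i))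
    (hs : Dn cs u i → Star cs (u * cs.simple i) (v * cs.simple i)) {k : B → ℝ}
    (hk : K cs u v k) :
    ∃ k1, ∃ l : ℝ, K cs u (v * cs.simple i) k1 ∧ 0 ≤ l ∧ k = k1 + l • al i := by
  refine InCone.ind (P := fun k => ∃ k1, ∃ l : ℝ, K cs u (v * cs.simple i) k1 ∧ 0 ≤ l ∧
    k = k1 + l • al i) ⟨0, 0, InCone.zero, le_rfl, by simp⟩ ?_ ?_ ?_ hk
  · rintro β ⟨e, he, hev⟩
    rcases up_or_dn (cs := cs) e i with h1 | h1
    · exact ⟨β, 0, InCone.of_mem ⟨e, he, hev.ud2 h1 hv⟩, le_rfl, by simp⟩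
    rcases up_or_dn (cs := cs) u i with hu | hu
    · have := he.bcov.ud hu h1
      subst this
      exact ⟨0, 1, InCone.zero, zero_le_one, by simp [he.lab_unique hu.edge]⟩
    have he' := he.dd hu h1
    obtain ⟨μ, k', hk', e1⟩ := hs hu u (al i) hu.edge huv _
      (InCone.of_mem ⟨_, he', hev.dd h1 hv⟩)
    have e2 : β = k' + (μ + 2 * bil M β (al i)) • al i := by
      rw [rf_apply] at e1
      rw [add_smul]; linear_combination (norm := module) e1
    refine ⟨k', _, hk', ?_, e2⟩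
    by_contra hneg
    push Not at hneg
    obtain ⟨g, g0, g1⟩ := he'.sep
    have n1 : al i ≠ rf M (al i) β := by
      intro h
      rw [← h] at he'
      have := he'.unique hu.edge
      have l1 := he.bcov.1
      unfold Dn at h1 hu
      have : e = u * cs.simple i := by rw [← this]; simp
      rw [← this] at hu; omega
    have ga := g1 _ hu.edge.non n1
    have gk : g (rf M (al i) k') ≤ 0 := by
      refine InCone.nonpos (g ∘ₗ rf M (al i)) ?_ hk'
      rintro γ ⟨a, ha, -⟩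
      by_cases hγ : rf M (al i) γ = rf M (al i) β
      · simp [hγ, g0]
      · exact (g1 _ (non_conj ha.non (ha.ne_of_dn hu)) hγ).le
    rw [e2, map_add, map_smul, rf_al_self, map_add, map_smul, map_neg, smul_eq_mul] at g0
    nlinarith
  · rintro a b ⟨k1, l1, a1, a2, rfl⟩ ⟨k2, l2, b1, b2, rfl⟩
    exact ⟨k1 + k2, l1 + l2, InCone.add a1 b1, add_nonneg a2 b2, by module⟩
  · rintro c a hc ⟨k1, l1, a1, a2, rfl⟩
    exact ⟨c • k1, c * l1, InCone.smul a1 hc, mul_nonneg hc a2, by module⟩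

lemma lemD {u v : W} {i : B} (hu : Dn cs u i) (hv : Dn cs v i) (ht : Toric cs u v)
    {k : B → ℝ} (hk : K cs u v k) :
    K cs (u * cs.simple i) (v * cs.simple i) (rf M (al i) k) := by
  refine InCone.map _ ?_ hk
  rintro β ⟨e, he, hev⟩
  rcases up_or_dn (cs := cs) e i with h1 | h1
  · have h2 := hev.ud2 h1 hv
    obtain ⟨a, β', p, q, h3, h4, h5, h6, h7⟩ := plane hu h1 he
      ((ht.dd hu hv).left (hu.bcov.le.trans he.bcov.le) h2)
    rw [h7]
    exact InCone.add ((K.of h3 (h4.trans h2)).smul h5)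
      ((K.of hu.edge (he.bcov.le.trans h2)).smul h6.le)
  · exact InCone.of_mem ⟨_, he.dd hu h1, hev.dd h1 hv⟩

lemma lemB {a v : W} {i : B} (ha : Dn cs a i) (hv : Dn cs v i) {k : B → ℝ}
    (hk : K cs (a * cs.simple i) (v * cs.simple i) k) :
    ∃ y, ∃ n : ℝ, K cs a v y ∧ 0 ≤ n ∧ rf M (al i) k = y - n • al i ∧
      (¬ Le cs a (v * cs.simple i) → n = 0) := by
  refine InCone.ind (P := fun k => ∃ y, ∃ n : ℝ, K cs a v y ∧ 0 ≤ n ∧
    rf M (al i) k = y - n • al i ∧ (¬ Le cs a (v * cs.simple i) → n = 0))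
    ⟨0, 0, InCone.zero, le_rfl, by simp, fun _ => rfl⟩ ?_ ?_ ?_ hk
  · rintro γ ⟨e, he, hev⟩
    rcases up_or_dn (cs := cs) e i with h1 | h1
    · refine ⟨_, 0, InCone.of_mem ⟨e * cs.simple i, by simpa using he.uu ha.up h1,
        by simpa using hev.uu h1 hv.up⟩, le_rfl, by simp, fun _ => rfl⟩
    · have : e = a := by simpa using he.bcov.ud ha.up h1
      subst this
      refine ⟨0, 1, InCone.zero, zero_le_one, ?_, fun h => (h hev).elim⟩
      rw [he.lab_unique ha.edge, rf_al_self]; simp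
  · rintro _ _ ⟨k1, l1, a1, a2, a3, a4⟩ ⟨k2, l2, b1, b2, b3, b4⟩
    refine ⟨k1 + k2, l1 + l2, InCone.add a1 b1, add_nonneg a2 b2, ?_,
      fun h => by rw [a4 h, b4 h, add_zero]⟩
    rw [map_add, a3, b3]; module
  · rintro c _ hc ⟨k1, l1, a1, a2, a3, a4⟩
    refine ⟨c • k1, c * l1, InCone.smul a1 hc, mul_nonneg hc a2, ?_,
      fun h => by rw [a4 h, mul_zero]⟩
    rw [map_smul, a3]; module

lemma coef_zero {u v : W} {i : B} (hv : Dn cs v i) (ht : Toric cs u v)
    (huv : Le cs u (v * cs.simple i)) {c : ℝ} (h : c • al i ∈ Vs cs u (v * cs.simple i)) :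
    c = 0 := by
  have := ht.disj huv hv.bcov.le h (Submodule.smul_mem _ _ hv.edge.mem_vs)
  exact (smul_eq_zero.mp this).resolve_right (isRoot_al (cs := cs) i).ne_zero

lemma star_step {u v : W} {i : B} (hv : Dn cs v i) (ht : Toric cs u v)
    (ih : ∀ x, Toric cs x (v * cs.simple i) → Star cs x (v * cs.simple i)) : Star cs u v := by
  intro a β he hav k hk
  rcases up_or_dn (cs := cs) a i with ha | ha
  · have h1 := hav.ud2 ha hv
    have h2 := he.bcov.le.trans h1
    obtain ⟨k1, l, a1, a2, rfl⟩ := lemE hv h2 (fun hu => ih _ (ht.dd hu hv)) hk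
    obtain ⟨μ, k', b1, rfl⟩ := ih u (ht.left h2 hv.bcov.le) a β he h1 k1 a1
    exact ⟨μ, k' + l • al i, InCone.add (b1.mono hv.bcov.le)
      ((K.of ha.edge (hav.ud1 ha hv)).smul a2), by abel⟩
  rcases up_or_dn (cs := cs) u i with hu | hu
  · have := he.bcov.ud hu ha
    subst this
    rw [he.lab_unique hu.edge]
    refine InCone.ind (P := fun k => ∃ (μ : ℝ) (k' : B → ℝ),
      K cs (u * cs.simple i) v k' ∧ k = μ • al i + k') ⟨0, 0, InCone.zero, by simp⟩ ?_ ?_ ?_ hk
    · rintro γ ⟨e, he', hev⟩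
      rcases up_or_dn (cs := cs) e i with h1 | h1
      · refine ⟨2 * bil M γ (al i), _, InCone.of_mem ⟨_, he'.uu hu h1, hev.ud1 h1 hv⟩, ?_⟩
        rw [rf_apply]; module
      · have := he'.bcov.ud hu h1
        subst this
        exact ⟨1, 0, InCone.zero, by simp [he'.lab_unique hu.edge]⟩
    · rintro _ _ ⟨m1, k1, a1, rfl⟩ ⟨m2, k2, b1, rfl⟩
      exact ⟨m1 + m2, k1 + k2, InCone.add a1 b1, by module⟩
    · rintro c _ hc ⟨m1, k1, a1, rfl⟩
      exact ⟨c * m1, c • k1, InCone.smul a1 hc, by module⟩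
  · have ht' := ht.dd hu hv
    obtain ⟨μ, k', b1, b2⟩ := ih _ ht' _ _ (he.dd hu ha) (hav.dd ha hv) _ (lemD hu hv ht hk)
    obtain ⟨y, n, c1, c2, c3, c4⟩ := lemB ha hv b1
    have e1 : k = μ • β + (y - n • al i) := by
      rw [← rf_rf M (bil_al_self M i) k, b2, map_add, map_smul, rf_rf M (bil_al_self M i), c3]
    refine ⟨μ, _, ?_, e1⟩
    by_cases hle : Le cs a (v * cs.simple i)
    swap
    · rw [c4 hle]; simpa using c1
    have h2 := he.bcov.le.trans hle
    have hta := ht.right he.bcov.le hav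
    obtain ⟨k2, l2, d1, d2, d3⟩ := lemE hv h2 (fun _ => ih _ ht') hk
    obtain ⟨k1, l1, f1, f2, f3⟩ := lemE hv hle (fun _ => ih _ (hta.dd ha hv)) c1
    have htu := ht.left h2 hv.bcov.le
    have hz : l1 - n - l2 = 0 := by
      apply coef_zero hv ht h2
      have : (l1 - n - l2) • al i = k2 - μ • β - k1 := by
        rw [d3, f3] at e1
        rw [sub_smul, sub_smul]; linear_combination (norm := module) -e1
      rw [this]
      exact Submodule.sub_mem _ (Submodule.sub_mem _ (d1.mem htu)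
        (Submodule.smul_mem _ _ (htu.le_left he.bcov.le hle he.mem_vs)))
        (htu.le_right he.bcov.le hle (f1.mem (htu.right he.bcov.le hle)))
    rcases f2.eq_or_lt with h0 | h0
    · have : n = 0 := by linarith
      rw [this]; simpa using c1
    · have : y - n • al i = (l2 / l1) • y + (n / l1) • k1 := by
        have e : l2 = l1 - n := by linarith
        rw [f3, e]
        match_scalars <;> field_simp <;> ring
      rw [this]
      exact InCone.add (InCone.smul c1 (by positivity))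
        (InCone.smul (f1.mono hv.bcov.le) (by positivity))

lemma mp_coatom {u v : W} {i : B} (hv : Dn cs v i) (ht : Toric cs u v)
    (ih : ∀ x, Toric cs x (v * cs.simple i) → Star cs x (v * cs.simple i))
    (ihm : ∀ x, Toric cs x (v * cs.simple i) → Mp cs x (v * cs.simple i))
    {a y : W} {β : B → ℝ} (he : Edge cs u a β) (hav : Le cs a v) (huy : Le cs u y)
    (hyv : BCov cs y v) (hβ : β ∈ Vs cs u y) : Le cs a y := by
  rcases up_or_dn (cs := cs) y i with hy | hy
  · have : y = v * cs.simple i := by rw [hyv.ud hy hv]; simp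
    subst this
    obtain ⟨k1, l, a1, -, a3⟩ := lemE hv huy (fun hu => ih _ (ht.dd hu hv))
      (InCone.of_mem ⟨a, he, hav⟩)
    have : l = 0 := by
      apply coef_zero hv ht huy
      have : l • al i = β - k1 := by rw [a3]; abel
      rw [this]
      exact Submodule.sub_mem _ hβ (a1.mem (ht.left huy hv.bcov.le))
    rw [this, zero_smul, add_zero] at a3
    exact K.ext (a3 ▸ a1) he
  have hy' := (hyv.dd hy hv).le
  rcases up_or_dn (cs := cs) a i with ha | ha
  · have h1 := hav.ud2 ha hv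
    have h2 := he.bcov.le.trans h1
    have h3 : Le cs u (y * cs.simple i) := by
      rcases up_or_dn (cs := cs) u i with hu | hu
      · exact huy.ud2 hu hy
      · have ht' := ht.dd hu hv
        obtain ⟨a', β', p, q, c1, c2, c3, c4, c5⟩ := plane hu ha he
          (ht'.left (hu.bcov.le.trans he.bcov.le) h1)
        have c6 := Vs_conj (i := i) hβ
        rw [c5, add_comm] at c6
        have c7 := face ih hy' (huy.dd hu hy) ht'
          ((K.of hu.edge h2).smul c4.le)
          ((K.of c1 (c2.trans h1)).smul c3) c6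
        exact ihm _ ht' u _ _ hu.edge h2 (huy.dd hu hy) hy'
          ((Submodule.smul_mem_iff _ c4.ne').mp c7)
    have htu := ht.left h2 hv.bcov.le
    have hty := ht.left huy hyv.le
    rw [← (hty.split h3 hy.bcov.le).2.2.1, hy.edge.vs, Submodule.mem_sup] at hβ
    obtain ⟨z, hz, w, hw, hzw⟩ := hβ
    obtain ⟨c, rfl⟩ := Submodule.mem_span_singleton.mp hw
    have : c = 0 := by
      apply coef_zero hv ht h2
      have : c • al i = β - z := by rw [← hzw]; abel
      rw [this]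
      exact Submodule.sub_mem _ (htu.le_left he.bcov.le h1 he.mem_vs) (htu.le_left h3 hy' hz)
    rw [this, zero_smul, add_zero] at hzw
    exact (ihm _ htu a β _ he h1 h3 hy' (hzw ▸ hz)).trans hy.bcov.le
  · rcases up_or_dn (cs := cs) u i with hu | hu
    · rw [he.bcov.ud hu ha]; exact huy.ud1 hu hy
    · have := ihm _ (ht.dd hu hv) _ _ _ (he.dd hu ha) (hav.dd ha hv) (huy.dd hu hy) hy'
        (Vs_conj hβ)
      simpa using this.uu ha.up hy.up

lemma star_mp : ∀ (n : ℕ) (v : W), cs.length v = n → ∀ u, Toric cs u v →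
    Star cs u v ∧ Mp cs u v := by
  intro n
  induction n using Nat.strong_induction_on with
  | _ n ih =>
  intro v hn u ht
  by_cases h1 : v = 1
  · subst h1
    constructor
    · intro a β he hav
      have l1 := he.bcov.1; have l2 := hav.len; rw [length_one] at l2; omega
    · intro a β y he hav
      have l1 := he.bcov.1; have l2 := hav.len; rw [length_one] at l2; omega
  obtain ⟨i, hi⟩ := cs.exists_rightDescent_of_ne_one h1
  rw [isRightDescent_iff] at hi
  have hv : Dn cs v i := hi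
  have ih1 := fun x hx => (ih _ (by omega) (v * cs.simple i) rfl x hx).1
  have ih2 := fun x hx => (ih _ (by omega) (v * cs.simple i) rfl x hx).2
  refine ⟨star_step hv ht ih1, ?_⟩
  intro a β y he hav huy hyv hβ
  by_cases hy : y = v
  · rw [hy]; exact hav
  obtain ⟨y1, h2, h3⟩ := hyv.tail hy
  have ht1 := ht.left (huy.trans h2) h3.le
  have h4 := mp_coatom hv ht ih1 ih2 he hav (huy.trans h2) h3 (ht1.le_left huy h2 hβ)
  exact (ih _ (by have := h3.1; omega) y1 rfl u ht1).2 a β y he h4 huy h2 hβ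

lemma exists_J {v : W} : ∀ (n : ℕ) (u : W), cs.length v = cs.length u + n → Toric cs u v →
    ∀ k, K cs u v k → ∃ y0, Le cs u y0 ∧ Le cs y0 v ∧
      ∀ y, Le cs u y → Le cs y v → (k ∈ Vs cs u y ↔ Le cs y0 y) := by
  have hs : ∀ x, Toric cs x v → Star cs x v := fun x hx => (star_mp _ v rfl x hx).1
  intro n
  induction n using Nat.strong_induction_on with
  | _ n ih =>
  intro u hn ht k hk
  rcases InCone.cases' hk with rfl | ⟨k0, β, c, hk0, ⟨a, he, hav⟩, hc, e⟩
  · exact ⟨u, Le.refl u, ht.1, fun y h1 _ => ⟨fun _ => h1, fun _ => Submodule.zero_mem _⟩⟩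
  obtain ⟨μ, k', hk', e'⟩ := hs u ht a β he hav k hk
  have hta := ht.right he.bcov.le hav
  have l1 := he.bcov.1
  have l2 := hav.len
  obtain ⟨y0, a1, a2, a3⟩ := ih (n - 1) (by omega) a (by omega) hta k' hk'
  refine ⟨y0, he.bcov.le.trans a1, a2, fun y h1 h2 => ⟨fun h => ?_, fun h => ?_⟩⟩
  · have hb : β ∈ Vs cs u y := by
      rw [e, add_comm] at h
      exact (Submodule.smul_mem_iff _ hc.ne').mp
        (face hs h2 h1 ht ((K.of he hav).smul hc.le) hk0 h)
    have hay := (star_mp _ v rfl u ht).2 a β y he hav h1 h2 hb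
    rw [← a3 y hay h2]
    have hty := ht.left h1 h2
    rw [← (hty.split he.bcov.le hay).2.2.1, Submodule.mem_sup] at h
    obtain ⟨p, hp, q, hq, hpq⟩ := h
    have : k' - q = 0 := by
      apply ht.disj he.bcov.le hav
      · have : k' - q = p - μ • β := by
          rw [e'] at hpq; linear_combination (norm := module) -hpq
        rw [this]
        exact Submodule.sub_mem _ hp (Submodule.smul_mem _ _ he.mem_vs)
      · exact Submodule.sub_mem _ (hk'.mem hta) (hta.le_left hay h2 hq)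
    rw [sub_eq_zero.mp this]; exact hq
  · have hay := a1.trans h
    have hty := ht.left h1 h2
    rw [e']
    exact Submodule.add_mem _ (Submodule.smul_mem _ _ (hty.le_left he.bcov.le hay he.mem_vs))
      (hty.le_right he.bcov.le hay ((a3 y hay h2).mpr h))

lemma atom_join {u v a b : W} (ht : Toric cs u v) (ha : BCov cs u a) (hav : Le cs a v)
    (hb : BCov cs u b) (hbv : Le cs b v) :
    ∃ j, Le cs a j ∧ Le cs b j ∧ Le cs j v ∧
      ∀ y, Le cs a y → Le cs b y → Le cs y v → Le cs j y := by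
  have hs : ∀ x, Toric cs x v → Star cs x v := fun x hx => (star_mp _ v rfl x hx).1
  have hm := (star_mp _ v rfl u ht).2
  obtain ⟨α, hα⟩ := ha.edge
  obtain ⟨β, hβ⟩ := hb.edge
  have k1 : K cs u v α := InCone.of_mem ⟨a, hα, hav⟩
  have k2 : K cs u v β := InCone.of_mem ⟨b, hβ, hbv⟩
  obtain ⟨j, j1, j2, j3⟩ := exists_J (cs.length v - cs.length u) u
    (by have := ht.1.len; omega) ht _ (InCone.add k1 k2)
  have h := (j3 j j1 j2).mpr (Le.refl j)
  refine ⟨j, hm a α j hα hav j1 j2 (face hs j2 j1 ht k1 k2 h),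
    hm b β j hβ hbv j1 j2 (face hs j2 j1 ht k2 k1 (by rwa [add_comm])), j2, ?_⟩
  intro y h1 h2 h3
  have hty := ht.left (ha.le.trans h1) h3
  exact (j3 y (ha.le.trans h1) h3).mp (Submodule.add_mem _
    (hty.le_left ha.le h1 hα.mem_vs) (hty.le_left hb.le h2 hβ.mem_vs))

end Pool.Agent.MP_8f5299_co
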